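import Pool.Agent.Helper21.MT.Norm

/-!
Pairs of linked Lie algebras of operators: definitions.
-/

set_option linter.unusedSectionVars false

open Module

namespace AV

open MTP

section P
variable {K : Type*} [Field K] {W : Type*} [AddCommGroup W] [Module K W]

/-- The skew operators of a form. -/
def skw (b : LinearMap.BilinForm K W) : Submodule K (Module.End K W) where
  carrier := {x | IsSk b x}
  add_mem' := by
    intro x y hx hy v w
    rw [LinearMap.add_apply, LinearMap.add_apply, map_add, map_add, LinearMap.add_apply,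
      hx v w, hy v w]
    ring
  zero_mem' := by intro v w; simp
  smul_mem' := by
    intro c x hx v w
    rw [LinearMap.smul_apply, LinearMap.smul_apply, map_smul, map_smul, LinearMap.smul_apply,
      hx v w, smul_eq_mul, smul_eq_mul]
    ring

/-- The operators of trace zero. -/
noncomputable def slw (K W : Type*) [Field K] [AddCommGroup W] [Module K W] :
    Submodule K (Module.End K W) := LinearMap.ker (LinearMap.trace K W)

/-- The part of degree one. -/
def Gone (M : Submodule K (Module.End K W)) (h : Module.End K W) :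
    Submodule K (Module.End K W) where
  carrier := {x | x ∈ M ∧ h * x - x * h = x}
  add_mem' := by
    rintro x y ⟨hx, hx'⟩ ⟨hy, hy'⟩
    refine ⟨M.add_mem hx hy, ?_⟩
    rw [mul_add, add_mul, add_sub_add_comm, hx', hy']
  zero_mem' := ⟨M.zero_mem, by simp⟩
  smul_mem' := by
    rintro c x ⟨hx, hx'⟩
    refine ⟨M.smul_mem c hx, ?_⟩
    rw [mul_smul_comm, smul_mul_assoc, ← smul_sub, hx']

/-- `h` has degrees `-1`, `0`, `1` on `M`. -/
def Grd (M : Submodule K (Module.End K W)) (h : Module.End K W) : Prop :=
  ∀ x ∈ M, h * (h * (h * x - x * h) - (h * x - x * h) * h) -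
    (h * (h * x - x * h) - (h * x - x * h) * h) * h = h * x - x * h


variable {W₁ W₂ : Type*} [AddCommGroup W₁] [Module K W₁] [AddCommGroup W₂] [Module K W₂]

/-- Two linked Lie algebras of operators: the graph of an isomorphism between simple Lie
algebras. -/
structure Lk (L : Submodule K (Module.End K W₁ × Module.End K W₂)) : Prop where
  br : ∀ x ∈ L, ∀ y ∈ L, x * y - y * x ∈ L
  k1 : ∀ x ∈ L, x.1 = 0 → x.2 = 0
  k2 : ∀ x ∈ L, x.2 = 0 → x.1 = 0
  smp : ∀ M ≤ L, (∀ x ∈ L, ∀ y ∈ M, x * y - y * x ∈ M) → M = ⊥ ∨ M = L
  ne : ∃ x ∈ L, x ≠ 0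

/-- `L` projects onto `M` in the first factor. -/
def On1 (L : Submodule K (Module.End K W₁ × Module.End K W₂))
    (M : Submodule K (Module.End K W₁)) : Prop := L.map (LinearMap.fst K _ _) = M
/-- `L` projects onto `M` in the second factor. -/
def On2 (L : Submodule K (Module.End K W₁ × Module.End K W₂))
    (M : Submodule K (Module.End K W₂)) : Prop := L.map (LinearMap.snd K _ _) = M


end P

end AV
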