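import Pool.Agent.Helper2.UN.PDefs

/-!
Strong Mumford-Tate pairs with a semisimple standard representation: subrepresentations, places
of bad reduction, and the derived group of the Lefschetz group.
-/

open Module

namespace MTPairs

variable {K : Type*} [Field K] {m : Type*} [Fintype m] [DecidableEq m]

/-- The subspace `U` of `K^m` is stable under `G`. -/
def IsSub (G : Subgroup (Matrix.GeneralLinearGroup m K)) (U : Submodule K (m → K)) : Prop :=
  ∀ g ∈ G, ∀ v ∈ U, (g : Matrix m m K).mulVec v ∈ U

/-- The subspace `W` of `K^m` is an irreducible subrepresentation of `G`. -/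
structure IsIrrSub (G : Subgroup (Matrix.GeneralLinearGroup m K)) (W : Submodule K (m → K)) :
    Prop where
  ne : W ≠ ⊥
  sub : IsSub G W
  irr : ∀ U ≤ W, IsSub G U → U = ⊥ ∨ U = W

/-- The representation `K^m` of `G` is semisimple: every stable subspace has a stable
complement. -/
def IsReductiveRep (G : Subgroup (Matrix.GeneralLinearGroup m K)) : Prop :=
  ∀ U, IsSub G U → ∃ U', IsSub G U' ∧ IsCompl U U'

/-- `W` has a place of bad reduction of toric rank `r`: every `γ` in `Γ` coincides on every
finite set with some `γ'` in `Γ` which commutes with an element `u = 1 + N` of `G`, such that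
`P N = N` and `N P = 0` for some conjugate `P` of `π` (so that `N` is of weight one for the
cocharacter `P`, and `N² = 0`), and such that `N` has rank `r` on all the images of `W` under
the elements of `Γ`. -/
def BadAt (Γ : Subgroup (Equiv.Perm (m → K))) (G : Subgroup (Matrix.GeneralLinearGroup m K))
    (π : Matrix m m K) (W : Submodule K (m → K)) (r : ℕ) : Prop :=
  ∀ γ ∈ Γ, ∀ E : Finset (m → K), ∃ γ' ∈ Γ, (∀ v ∈ E, γ' v = γ v) ∧
    ∃ u ∈ G, ∃ P : Matrix m m K, IsConj Γ G π P ∧
      P * ((u : Matrix m m K) - 1) = (u : Matrix m m K) - 1 ∧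
      ((u : Matrix m m K) - 1) * P = 0 ∧
      (∀ v : m → K, (u : Matrix m m K).mulVec (γ' v) = γ' ((u : Matrix m m K).mulVec v)) ∧
      ∀ θ ∈ Γ, ∀ U : Submodule K (m → K), (∀ v, v ∈ W ↔ θ v ∈ U) →
        finrank K (U.map ((u : Matrix m m K) - 1).mulVecLin) = r

/-- Some conjugate `P` of `π` has on `W` an eigenspace of dimension `s` and another one of
dimension `dim W - s`, with `s` the smaller one of these two numbers. -/
def HasSig (Γ : Subgroup (Equiv.Perm (m → K))) (G : Subgroup (Matrix.GeneralLinearGroup m K))
    (π : Matrix m m K) (W : Submodule K (m → K)) (s : ℕ) : Prop :=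
  ∃ P : Matrix m m K, IsConj Γ G π P ∧ min (rankOn P W) (finrank K W - rankOn P W) = s

/-- `G` contains every isometry of the form with Gram matrix `J` which commutes with all the
endomorphisms of the representation `K^m` of `G` and has determinant one on every irreducible
subrepresentation. -/
def ContainsDer (J : Matrix m m K) (G : Subgroup (Matrix.GeneralLinearGroup m K)) : Prop :=
  ∀ g : Matrix.GeneralLinearGroup m K,
    (g : Matrix m m K).transpose * J * (g : Matrix m m K) = J →
    (∀ T : Matrix m m K, (∀ h ∈ G, T * (h : Matrix m m K) = (h : Matrix m m K) * T) →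
      T * (g : Matrix m m K) = (g : Matrix m m K) * T) →
    (∀ W : Submodule K (m → K), IsIrrSub G W →
      ∀ h : ∀ v ∈ W, (g : Matrix m m K).mulVecLin v ∈ W,
        DetOne ((g : Matrix m m K).mulVecLin.restrict h)) → g ∈ G

end MTPairs
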