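import Pool.Agent.Helper2.UN.RedDefs
import Pool.Agent.Helper2.UN.SDefs
import Pool.Agent.Helper2.AV.Defs

/-!
Semisimple Mumford-Tate pairs, abstract form: definitions.
-/

open Module

namespace AV

open MTP UN

variable {K : Type*} [Field K] {V : Type*} [AddCommGroup V] [Module K V] [FiniteDimensional K V]

/-- `U` is stable under the operators in `A`. -/
def Stab (A : Set (Module.End K V)) (U : Submodule K V) : Prop := ∀ a ∈ A, ∀ v ∈ U, a v ∈ U

/-- `W` is irreducible under `A`. -/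
structure Irr (A : Set (Module.End K V)) (W : Submodule K V) : Prop where
  ne : W ≠ ⊥
  st : Stab A W
  irr : ∀ U ≤ W, Stab A U → U = ⊥ ∨ U = W

/-- `V` is semisimple under `A`. -/
def SS (A : Set (Module.End K V)) : Prop := ∀ U, Stab A U → ∃ U', Stab A U' ∧ IsCompl U U'

/-- `ε` is a primitive central idempotent of `A`. -/
structure Bl (A : Subalgebra K (Module.End K V)) (ε : Module.End K V) : Prop where
  mem : ε ∈ A
  cen : ∀ a ∈ A, ε * a = a * ε
  idem : ε * ε = ε
  ne : ε ≠ 0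
  min : ∀ e ∈ A, (∀ a ∈ A, e * a = a * e) → e * e = e → e * ε = 0 ∨ e * ε = ε

/-- `W` lies in the image of `ε`. -/
def InB (ε : Module.End K V) (W : Submodule K V) : Prop := ∀ w ∈ W, ε w = w

/-- The part `A ε` of `A`. -/
def Ae (A : Subalgebra K (Module.End K V)) (ε : Module.End K V) :
    Submodule K (Module.End K V) where
  carrier := {x | x ∈ A ∧ x * ε = x}
  add_mem' := by
    rintro a b ⟨ha, ha'⟩ ⟨hb, hb'⟩
    exact ⟨A.add_mem ha hb, by rw [add_mul, ha', hb']⟩
  zero_mem' := ⟨A.zero_mem, by rw [zero_mul]⟩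
  smul_mem' := by
    rintro c a ⟨ha, ha'⟩
    exact ⟨A.smul_mem ha c, by rw [smul_mul_assoc, ha']⟩

lemma mem_Ae {A : Subalgebra K (Module.End K V)} {ε x : Module.End K V} :
    x ∈ Ae A ε ↔ x ∈ A ∧ x * ε = x := Iff.rfl

/-- A projection to the subspace `W`. -/
noncomputable def prj (W : Submodule K V) : V →ₗ[K] W :=
  Classical.choose (W.subtype.exists_leftInverse_of_injective
    (LinearMap.ker_eq_bot.mpr W.subtype_injective))

lemma prj_coe (W : Submodule K V) (w : W) : prj W (w : V) = w :=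
  LinearMap.congr_fun (Classical.choose_spec (W.subtype.exists_leftInverse_of_injective
    (LinearMap.ker_eq_bot.mpr W.subtype_injective))) w

/-- The compression of operators to the subspace `W`: the restriction if `W` is stable. -/
noncomputable def Rw (W : Submodule K V) : Module.End K V →ₗ[K] Module.End K W where
  toFun x := prj W ∘ₗ x ∘ₗ W.subtype
  map_add' x y := by ext w; simp
  map_smul' c x := by ext w; simp

lemma Rw_coe {W : Submodule K V} {x : Module.End K V} (hx : ∀ w ∈ W, x w ∈ W) (w : W) :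
    ((Rw W x w : W) : V) = x w := by
  have h := prj_coe W ⟨x w, hx w w.2⟩
  change ((prj W (x w) : W) : V) = x w
  rw [h]

/-- `B` is a set of operators on `V`, stable under products, which acts faithfully through `ρ` on
`W` by all the endomorphisms of `W`, and `V` behaves as a multiple of `W`. -/
structure Rs {W : Type*} [AddCommGroup W] [Module K W] (B : Submodule K (Module.End K V))
    (ρ : Module.End K V →ₗ[K] Module.End K W) : Prop where
  mul : ∀ x ∈ B, ∀ y ∈ B, x * y ∈ B
  hom : ∀ x ∈ B, ∀ y ∈ B, ρ (x * y) = ρ x * ρ y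
  inj : ∀ x ∈ B, ρ x = 0 → x = 0
  surj : ∀ φ : Module.End K W, ∃ x ∈ B, ρ x = φ
  mult : ∃ k : ℕ, 0 < k ∧ (∀ x ∈ B, LinearMap.trace K V x = k * LinearMap.trace K W (ρ x)) ∧
    ∀ x ∈ B, MTP.rk x = k * MTP.rk (ρ x)

/-- The algebra generated by the conjugates of `p0`. -/
noncomputable def AA (G : Set (Module.End K V)) (T : Set (Module.End K V ≃+* Module.End K V))
    (p0 : Module.End K V) : Subalgebra K (Module.End K V) := Algebra.adjoin K (SC G T p0)

open Classical in
/-- The finite set of the primitive central idempotents of `A`. -/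
noncomputable def bls (A : Subalgebra K (Module.End K V)) : Finset (Module.End K V) :=
  if h : {ε | Bl A ε}.Finite then h.toFinset else ∅

/-- The component of `x` orthogonal to the primitive central idempotents of `A`. -/
noncomputable def nzb (A : Subalgebra K (Module.End K V)) (x : Module.End K V) :
    Module.End K V :=
  x - ∑ ε ∈ bls A, (LinearMap.trace K V (x * ε) / LinearMap.trace K V ε) • ε

/-- The Lie algebra. -/
noncomputable def ML (G : Set (Module.End K V)) (T : Set (Module.End K V ≃+* Module.End K V))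
    (p0 : Module.End K V) : Submodule K (Module.End K V) :=
  lieGen K {x | ∃ p ∈ SC G T p0, x = nzb (AA G T p0) p}

/-- The component of the Lie algebra in the block `ε`. -/
noncomputable def Lb (G : Set (Module.End K V)) (T : Set (Module.End K V ≃+* Module.End K V))
    (p0 ε : Module.End K V) : Submodule K (Module.End K V) :=
  (ML G T p0).map (LinearMap.mulRight K ε)

/-- The hypotheses of the group theorem, in abstract form. -/
structure MStr (ω : LinearMap.BilinForm K V) (G : Set (Module.End K V))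
    (T : Set (Module.End K V ≃+* Module.End K V)) (p0 : Module.End K V) : Prop where
  nt : Nontrivial V
  nd : ω.Nondegenerate
  alt : ω.IsAlt
  one : 1 ∈ G
  mul : ∀ g ∈ G, ∀ h ∈ G, g * h ∈ G
  inv : ∀ g ∈ G, ∃ h ∈ G, g * h = 1 ∧ h * g = 1
  sim : ∀ g ∈ G, ∃ c : K, ∀ v w, ω (g v) (g w) = c * ω v w
  ss : SS G
  semi : ∀ τ ∈ T, ∃ σ : K ≃+* K, ∀ (c : K) (x : Module.End K V), τ (c • x) = σ c • τ x
  rk : ∀ τ ∈ T, ∀ x, MTP.rk (τ x) = MTP.rk x
  tone : RingEquiv.refl _ ∈ T
  tmul : ∀ τ ∈ T, ∀ τ' ∈ T, τ'.trans τ ∈ T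
  tinv : ∀ τ ∈ T, τ.symm ∈ T
  tgrp : ∀ τ ∈ T, ∀ g ∈ G, τ g ∈ G
  idem : p0 * p0 = p0
  cpt : ∀ p ∈ SC G T p0, ∀ t : K, t ≠ 0 → 1 + (t - 1) • p ∈ G
  genA : ∀ M : Subalgebra K (Module.End K V), (∀ p ∈ SC G T p0, p ∈ M) → ∀ g ∈ G, g ∈ M
  genB : ∀ M : Submodule K (Module.End K V),
    (∀ p ∈ SC G T p0, ∀ t : K, t ≠ 0 → ∀ x ∈ M,
      (1 + (t - 1) • p) * x * (1 + (t⁻¹ - 1) • p) ∈ M) →
    ∀ g ∈ G, ∀ h ∈ G, g * h = 1 → h * g = 1 → ∀ x ∈ M, g * x * h ∈ M

/-- The block `ε` has a place of bad reduction: the symmetries commuting with some `u = 1 + N`,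
`P N = N`, `N P = 0`, are dense, and `N` has rank `r` on all the images of the block. -/
def BadE (G : Set (Module.End K V)) (T : Set (Module.End K V ≃+* Module.End K V))
    (p0 ε : Module.End K V) (r : ℕ) : Prop :=
  ∀ τ ∈ T, ∀ E : Finset (Module.End K V), ∃ τ' ∈ T, (∀ x ∈ E, τ' x = τ x) ∧
    ∃ u ∈ G, ∃ p ∈ SC G T p0, p * (u - 1) = u - 1 ∧ (u - 1) * p = 0 ∧ τ' u = u ∧
      ∀ τ'' ∈ T, MTP.rk ((u - 1) * τ'' ε) = r

/-- The block `ε` is its own adjoint. -/
def SD (ω : LinearMap.BilinForm K V) (ε : Module.End K V) : Prop := IsAdj ω ε ε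

/-- The Lie algebra is as large as possible in the block `ε`. -/
def FullB (ω : LinearMap.BilinForm K V) (G : Set (Module.End K V))
    (T : Set (Module.End K V ≃+* Module.End K V)) (p0 ε : Module.End K V) : Prop :=
  ∀ x ∈ AA G T p0, x * ε = x → LinearMap.trace K V x = 0 → (SD ω ε → IsSk ω x) →
    x ∈ Lb G T p0 ε

/-- The Lie algebra is as large as possible. -/
def FullM (ω : LinearMap.BilinForm K V) (G : Set (Module.End K V))
    (T : Set (Module.End K V ≃+* Module.End K V)) (p0 : Module.End K V) : Prop :=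
  ∀ x ∈ AA G T p0, IsSk ω x → (∀ ε, Bl (AA G T p0) ε → LinearMap.trace K V (x * ε) = 0) →
    x ∈ ML G T p0

/-- The exceptional triples (dimension, signature, rank). -/
def Exc (D s r : ℕ) : Prop :=
  (∃ n k, 5 ≤ n ∧ 2 ≤ k ∧ 2 * k ≤ n ∧ D = n.choose k ∧ s = (n - 1).choose (k - 1) ∧
    r = (n - 2).choose (k - 1)) ∨
  (∃ n, 4 ≤ n ∧ D = 2 ^ (n - 1) ∧ s = 2 ^ (n - 2) ∧ (r = 2 ^ (n - 3) ∨ r = 2 ^ (n - 2)))

end AV
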