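import Pool.Agent.Helper2.AV.ADefs

/-!
Adjoints and central idempotents.
-/

set_option linter.unusedSimpArgs false
set_option linter.unusedSectionVars false
set_option linter.unusedVariables false

open Module

namespace AV

open MTP UN

variable {K : Type*} [Field K] {V : Type*} [AddCommGroup V] [Module K V] [FiniteDimensional K V]
  {ω : LinearMap.BilinForm K V} {G : Set (Module.End K V)}
  {T : Set (Module.End K V ≃+* Module.End K V)} {p0 : Module.End K V}

/-! ### Adjoints -/

lemma adj_unique (hω : ω.Nondegenerate) {a b b' : Module.End K V} (h : IsAdj ω a b)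
    (h' : IsAdj ω a b') : b = b' := by
  apply LinearMap.ext
  intro w
  rw [← sub_eq_zero]
  apply hω.2
  intro v
  rw [map_sub, ← h, ← h', sub_self]

lemma adj_symm (ha : ω.IsAlt) {a b : Module.End K V} (h : IsAdj ω a b) : IsAdj ω b a := by
  intro v w
  rw [← ha.neg_eq, ← h, ha.neg_eq]

lemma adj_mul {x y x' y' : Module.End K V} (h : IsAdj ω x y) (h' : IsAdj ω x' y') :
    IsAdj ω (x * x') (y' * y) := h.mul h'

lemma adj_one : IsAdj ω 1 1 := fun v w => rfl

lemma adj_add {x y x' y' : Module.End K V} (h : IsAdj ω x y) (h' : IsAdj ω x' y') :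
    IsAdj ω (x + x') (y + y') := h.add h'

lemma adj_smul {x y : Module.End K V} (c : K) (h : IsAdj ω x y) :
    IsAdj ω (c • x) (c • y) := by
  intro v w
  rw [LinearMap.smul_apply, map_smul, LinearMap.smul_apply, h, LinearMap.smul_apply, map_smul]

lemma adj_neg {x y : Module.End K V} (h : IsAdj ω x y) : IsAdj ω (-x) (-y) := by
  intro v w
  rw [LinearMap.neg_apply, map_neg, LinearMap.neg_apply, h, LinearMap.neg_apply, map_neg]

lemma adj_sub {x y x' y' : Module.End K V} (h : IsAdj ω x y) (h' : IsAdj ω x' y') :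
    IsAdj ω (x - x') (y - y') := by
  rw [sub_eq_add_neg, sub_eq_add_neg]; exact adj_add h (adj_neg h')

lemma adj_sum {ι : Type*} (s : Finset ι) {f g : ι → Module.End K V}
    (h : ∀ i ∈ s, IsAdj ω (f i) (g i)) : IsAdj ω (∑ i ∈ s, f i) (∑ i ∈ s, g i) := by
  classical
  induction s using Finset.induction_on with
  | empty => intro v w; simp
  | insert a s ha ih =>
    rw [Finset.sum_insert ha, Finset.sum_insert ha]
    exact adj_add (h a (Finset.mem_insert_self _ _))
      (ih fun i hi => h i (Finset.mem_insert_of_mem hi))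

lemma sk_of_adj {x : Module.End K V} (h : IsAdj ω x (-x)) : IsSk ω x := by
  intro v w
  rw [h, LinearMap.neg_apply, map_neg]

lemma adj_of_sk {x : Module.End K V} (h : IsSk ω x) : IsAdj ω x (-x) := by
  intro v w
  rw [h, LinearMap.neg_apply, map_neg]

/-! ### Idempotents -/

lemma Bl.mul_idem {A : Subalgebra K (Module.End K V)} {ε p : Module.End K V} (hε : Bl A ε)
    (hp : p ∈ A) (hpp : p * p = p) : p * ε * (p * ε) = p * ε := by
  calc p * ε * (p * ε) = p * (ε * p) * ε := by simp only [mul_assoc]
    _ = p * (p * ε) * ε := by rw [hε.cen p hp]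
    _ = (p * p) * (ε * ε) := by simp only [mul_assoc]
    _ = _ := by rw [hpp, hε.idem]

lemma Bl.trace_eq [CharZero K] {A : Subalgebra K (Module.End K V)} {ε : Module.End K V}
    (hε : Bl A ε) : LinearMap.trace K V ε = (MTP.rk ε : K) := UN.trace_idem hε.idem

lemma Bl.rk_ne [CharZero K] {A : Subalgebra K (Module.End K V)} {ε : Module.End K V}
    (hε : Bl A ε) : (MTP.rk ε : K) ≠ 0 := by
  rw [Nat.cast_ne_zero, ← Nat.pos_iff_ne_zero, rk_pos]
  exact hε.ne

end AV
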