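import Pool.Agent.Helper14.AV.DAa
import Pool.Agent.Helper2.AV.AdjL

/-!
Semisimple Mumford-Tate pairs, abstract form: basic properties.
-/

set_option linter.unusedSimpArgs false
set_option linter.unusedSectionVars false
set_option linter.unusedVariables false

open Module

namespace AV

open MTP UN

variable {K : Type*} [Field K] {V : Type*} [AddCommGroup V] [Module K V] [FiniteDimensional K V]
  {ω : LinearMap.BilinForm K V} {G : Set (Module.End K V)}
  {T : Set (Module.End K V ≃+* Module.End K V)} {p0 : Module.End K V}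

namespace MStr
variable (D : MStr ω G T p0)
include D

lemma p0_mem : p0 ∈ SC G T p0 :=
  ⟨_, D.tone, 1, D.one, 1, D.one, by simp, by simp, by simp⟩

lemma exists_ne_form : ∃ v w, ω v w ≠ 0 := by
  have := D.nt
  obtain ⟨v, hv⟩ := exists_ne (0 : V)
  by_contra hcon
  push Not at hcon
  exact hv (D.nd.1 v (hcon v))

lemma c1 {p : Module.End K V} (hp : p ∈ SC G T p0) : p * p = p := by
  obtain ⟨τ, hτ, g, hg, h, hh, hgh, hhg, rfl⟩ := hp
  have h1 : τ p0 * τ p0 = τ p0 := by rw [← map_mul, D.idem]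
  calc g * τ p0 * h * (g * τ p0 * h) = g * τ p0 * (h * g) * τ p0 * h := by
        simp only [mul_assoc]
    _ = g * (τ p0 * τ p0) * h := by rw [hhg, mul_one]; simp only [mul_assoc]
    _ = _ := by rw [h1]

lemma c2' [CharZero K] {p : Module.End K V} (hp : p ∈ SC G T p0) :
    IsSk ω ((2 : K) • p - 1) ∨ p = 0 ∨ p = 1 := by
  have hpp := D.c1 hp
  obtain ⟨c, hc⟩ := D.sim _ (D.cpt p hp 2 two_ne_zero)
  have e : (1 + ((2 : K) - 1) • p) = 1 + p := by norm_num
  rw [e] at hc
  have h4 := four hpp hc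
  have hnd := D.nd
  by_cases c2 : c = 2
  · left
    intro v w
    obtain ⟨a1, -, -, a4⟩ := h4 v w
    have b1 : ω (p v) (p w) = 0 := by
      rw [c2] at a1; exact (mul_eq_zero.mp a1).resolve_left (by norm_num)
    have b4 : ω (v - p v) (w - p w) = 0 := by
      rw [c2] at a4; exact (mul_eq_zero.mp a4).resolve_left (by norm_num)
    simp only [map_sub, LinearMap.sub_apply, LinearMap.smul_apply, map_smul,
      Module.End.one_apply, smul_eq_mul] at b1 b4 ⊢
    linear_combination 2 * b1 - 2 * b4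
  · right
    have b2 : ∀ v w, ω (p v) (w - p w) = 0 := fun v w =>
      (mul_eq_zero.mp (h4 v w).2.1).resolve_left (sub_ne_zero.mpr c2)
    have b3 : ∀ v w, ω (v - p v) (p w) = 0 := fun v w =>
      (mul_eq_zero.mp (h4 v w).2.2.1).resolve_left (sub_ne_zero.mpr c2)
    by_cases c4 : c = 4
    · right
      apply LinearMap.ext
      intro v
      have b4 : ∀ w, ω (v - p v) (w - p w) = 0 := by
        intro w
        have := (h4 v w).2.2.2
        rw [c4] at this
        exact (mul_eq_zero.mp this).resolve_left (by norm_num)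
      have : v - p v = 0 := by
        apply hnd.1
        intro w
        have e : w = p w + (w - p w) := by abel
        rw [e, map_add, b3, b4, add_zero]
      rw [sub_eq_zero] at this
      exact this.symm
    · left
      apply LinearMap.ext
      intro v
      have b1 : ∀ v w, ω (p v) (p w) = 0 := fun v w =>
        (mul_eq_zero.mp (h4 v w).1).resolve_left (sub_ne_zero.mpr c4)
      have : p v = 0 := by
        apply hnd.1
        intro w
        have e : w = p w + (w - p w) := by abel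
        rw [e, map_add, b1, b2, add_zero]
      exact this

/-- The adjoint of a conjugate. -/
lemma c2 [CharZero K] {p : Module.End K V} (hp : p ∈ SC G T p0) :
    IsAdj ω p (1 - p) ∨ p = 0 ∨ p = 1 := by
  rcases D.c2' hp with h | h
  · left
    intro v w
    have h1 := h v w
    simp only [LinearMap.sub_apply, LinearMap.smul_apply, map_sub, map_smul,
      Module.End.one_apply, smul_eq_mul] at h1 ⊢
    have h2 : (2 : K) * (ω (p v) w - (ω v w - ω v (p w))) = 0 := by linear_combination h1
    exact sub_eq_zero.mp ((mul_eq_zero.mp h2).resolve_left two_ne_zero)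
  · exact Or.inr h

lemma c3 {p : Module.End K V} (hp : p ∈ SC G T p0) {a b : Module.End K V} (ha : a ∈ G)
    (hb : b ∈ G) (hab : a * b = 1) (hba : b * a = 1) : a * p * b ∈ SC G T p0 := by
  obtain ⟨τ, hτ, g, hg, h, hh, hgh, hhg, rfl⟩ := hp
  refine ⟨τ, hτ, a * g, D.mul _ ha _ hg, h * b, D.mul _ hh _ hb, ?_, ?_, ?_⟩
  · calc a * g * (h * b) = a * (g * h) * b := by simp only [mul_assoc]
      _ = 1 := by rw [hgh, mul_one, hab]
  · calc h * b * (a * g) = h * (b * a) * g := by simp only [mul_assoc]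
      _ = 1 := by rw [hba, mul_one, hhg]
  · simp only [mul_assoc]

lemma c4 {p : Module.End K V} (hp : p ∈ SC G T p0) {τ : Module.End K V ≃+* Module.End K V}
    (hτ : τ ∈ T) : τ p ∈ SC G T p0 := by
  obtain ⟨τ', hτ', g, hg, h, hh, hgh, hhg, rfl⟩ := hp
  refine ⟨τ'.trans τ, D.tmul _ hτ _ hτ', τ g, D.tgrp _ hτ _ hg, τ h, D.tgrp _ hτ _ hh,
    ?_, ?_, ?_⟩
  · rw [← map_mul, hgh, map_one]
  · rw [← map_mul, hhg, map_one]
  · rw [map_mul, map_mul]; rfl

lemma sc_mem {p : Module.End K V} (hp : p ∈ SC G T p0) : p ∈ AA G T p0 :=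
  Algebra.subset_adjoin hp

lemma g_mem {g : Module.End K V} (hg : g ∈ G) : g ∈ AA G T p0 :=
  D.genA (AA G T p0) (fun p hp => D.sc_mem hp) g hg

/-- The operators preserving a subspace. -/
def stA (U : Submodule K V) : Subalgebra K (Module.End K V) where
  carrier := {x | ∀ w ∈ U, x w ∈ U}
  mul_mem' := by
    intro x y hx hy w hw
    exact hx _ (hy w hw)
  one_mem' := by intro w hw; exact hw
  add_mem' := by
    intro x y hx hy w hw
    exact U.add_mem (hx w hw) (hy w hw)
  zero_mem' := by intro w hw; exact U.zero_mem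
  algebraMap_mem' := by
    intro c w hw
    exact U.smul_mem c hw

omit D in
lemma stab_AA {U : Submodule K V} (h : ∀ p ∈ SC G T p0, ∀ v ∈ U, p v ∈ U) :
    Stab (AA G T p0 : Set (Module.End K V)) U := by
  have h1 : AA G T p0 ≤ stA U := Algebra.adjoin_le h
  intro a ha
  exact h1 ha

lemma stab_iff [CharZero K] {U : Submodule K V} :
    Stab G U ↔ Stab (AA G T p0 : Set (Module.End K V)) U := by
  constructor
  · intro h
    apply stab_AA
    intro p hp v hv
    have h1 := h _ (D.cpt p hp 2 two_ne_zero) v hv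
    have e : (1 + ((2 : K) - 1) • p) v = v + p v := by
      have : (2 : K) - 1 = 1 := by norm_num
      rw [this, one_smul]; rfl
    rw [e] at h1
    have h2 := U.sub_mem h1 hv
    rwa [add_sub_cancel_left] at h2
  · intro h g hg
    exact h g (D.g_mem hg)

lemma irr_iff [CharZero K] {U : Submodule K V} :
    Irr G U ↔ Irr (AA G T p0 : Set (Module.End K V)) U := by
  constructor
  · rintro ⟨h1, h2, h3⟩
    exact ⟨h1, D.stab_iff.mp h2, fun U' hU' h => h3 U' hU' (D.stab_iff.mpr h)⟩
  · rintro ⟨h1, h2, h3⟩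
    exact ⟨h1, D.stab_iff.mpr h2, fun U' hU' h => h3 U' hU' (D.stab_iff.mp h)⟩

lemma ssA [CharZero K] : SS (AA G T p0 : Set (Module.End K V)) := by
  intro U hU
  obtain ⟨U', h1, h2⟩ := D.ss U (D.stab_iff.mpr hU)
  exact ⟨U', D.stab_iff.mp h1, h2⟩

/-- The algebra is stable under adjoints. -/
lemma exists_adj [CharZero K] {a : Module.End K V} (ha : a ∈ AA G T p0) :
    ∃ a' ∈ AA G T p0, IsAdj ω a a' ∧ IsAdj ω a' a := by
  suffices h : ∃ a' ∈ AA G T p0, IsAdj ω a a' by
    obtain ⟨a', h1, h2⟩ := h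
    exact ⟨a', h1, h2, adj_symm D.alt h2⟩
  unfold AA at ha
  induction ha using Algebra.adjoin_induction with
  | mem p hp =>
    rcases D.c2 hp with h | h | h
    · exact ⟨1 - p, sub_mem (one_mem _) (D.sc_mem hp), h⟩
    · subst h
      exact ⟨0, zero_mem _, fun v w => by simp⟩
    · subst h
      exact ⟨1, one_mem _, adj_one⟩
  | algebraMap c =>
    refine ⟨algebraMap K _ c, Subalgebra.algebraMap_mem _ c, ?_⟩
    rw [Algebra.algebraMap_eq_smul_one]
    exact adj_smul c adj_one
  | add x y _ _ hx hy =>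
    obtain ⟨x', h1, h2⟩ := hx
    obtain ⟨y', h3, h4⟩ := hy
    exact ⟨x' + y', add_mem h1 h3, adj_add h2 h4⟩
  | mul x y _ _ hx hy =>
    obtain ⟨x', h1, h2⟩ := hx
    obtain ⟨y', h3, h4⟩ := hy
    exact ⟨y' * x', mul_mem h3 h1, adj_mul h2 h4⟩

lemma tw_mem {τ : Module.End K V ≃+* Module.End K V} (hτ : τ ∈ T) {a : Module.End K V}
    (ha : a ∈ AA G T p0) : τ a ∈ AA G T p0 := by
  obtain ⟨σ, hσ⟩ := D.semi τ hτ
  unfold AA at ha
  induction ha using Algebra.adjoin_induction with
  | mem p hp => exact D.sc_mem (D.c4 hp hτ)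
  | algebraMap c =>
    rw [Algebra.algebraMap_eq_smul_one, hσ, map_one]
    exact Subalgebra.smul_mem _ (one_mem _) _
  | add x y _ _ hx hy => rw [map_add]; exact add_mem hx hy
  | mul x y _ _ hx hy => rw [map_mul]; exact mul_mem hx hy

lemma tw_bl {τ : Module.End K V ≃+* Module.End K V} (hτ : τ ∈ T) {ε : Module.End K V}
    (hε : Bl (AA G T p0) ε) : Bl (AA G T p0) (τ ε) := by
  have hc : ∀ e : Module.End K V, (∀ a ∈ AA G T p0, e * a = a * e) →
      ∀ τ ∈ T, ∀ a ∈ AA G T p0, τ e * a = a * τ e := by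
    intro e he τ hτ a ha
    have h1 := he _ (D.tw_mem (D.tinv τ hτ) ha)
    have h2 := congrArg τ h1
    rwa [map_mul, map_mul, RingEquiv.apply_symm_apply] at h2
  refine ⟨D.tw_mem hτ hε.mem, hc ε hε.cen τ hτ, by rw [← map_mul, hε.idem], ?_, ?_⟩
  · intro h
    apply hε.ne
    apply τ.injective
    rw [h, map_zero]
  · intro e he hcen hidem
    rcases hε.min (τ.symm e) (D.tw_mem (D.tinv τ hτ) he) (hc e hcen _ (D.tinv τ hτ))
      (by rw [← map_mul, hidem]) with h | h
    · left
      have := congrArg τ h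
      rwa [map_mul, RingEquiv.apply_symm_apply, map_zero] at this
    · right
      have := congrArg τ h
      rwa [map_mul, RingEquiv.apply_symm_apply] at this

lemma adj_bl [CharZero K] {ε : Module.End K V} (hε : Bl (AA G T p0) ε) :
    ∃ ε', Bl (AA G T p0) ε' ∧ IsAdj ω ε ε' ∧ IsAdj ω ε' ε := by
  have hc : ∀ e e' : Module.End K V, (∀ a ∈ AA G T p0, e * a = a * e) → IsAdj ω e e' →
      ∀ a ∈ AA G T p0, e' * a = a * e' := by
    intro e e' he hee a ha
    obtain ⟨a', ha', h1, h2⟩ := D.exists_adj ha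
    have h3 := he a' ha'
    have h4 : IsAdj ω (e * a') (a * e') := adj_mul hee h2
    have h5 : IsAdj ω (e * a') (e' * a) := by rw [h3]; exact adj_mul h2 hee
    exact adj_unique D.nd h5 h4
  obtain ⟨ε', h1, h2, h3⟩ := D.exists_adj hε.mem
  refine ⟨ε', ⟨h1, hc ε ε' hε.cen h2, ?_, ?_, ?_⟩, h2, h3⟩
  · have h4 : IsAdj ω (ε * ε) (ε' * ε') := adj_mul h2 h2
    rw [hε.idem] at h4
    exact adj_unique D.nd h4 h2
  · intro h
    apply hε.ne
    rw [h] at h3
    exact adj_unique D.nd h3 (fun v w => by simp)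
  · intro e he hcen hidem
    obtain ⟨e', he', h4, h5⟩ := D.exists_adj he
    have h6 : e' * e' = e' := by
      have h7 : IsAdj ω (e * e) (e' * e') := adj_mul h4 h4
      rw [hidem] at h7
      exact adj_unique D.nd h7 h4
    have h8 : IsAdj ω (e' * ε) (ε' * e) := adj_mul h5 h2
    rcases hε.min e' he' (hc e e' hcen h4) h6 with h | h
    · left
      rw [h] at h8
      rw [hcen ε' h1]
      exact adj_unique D.nd h8 (fun v w => by simp)
    · right
      rw [h] at h8
      rw [hcen ε' h1]
      exact adj_unique D.nd h8 h2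

lemma trace_bl_ne [CharZero K] {ε : Module.End K V} (hε : Bl (AA G T p0) ε) :
    LinearMap.trace K V ε ≠ 0 := by
  rw [hε.trace_eq]; exact hε.rk_ne

/-- `nzb` in a block. -/
lemma nzb_mul [CharZero K] (x : Module.End K V) {ε : Module.End K V}
    (hε : Bl (AA G T p0) ε) : nzb (AA G T p0) x * ε =
      (x - (LinearMap.trace K V (x * ε) / LinearMap.trace K V ε) • 1) * ε := by
  unfold nzb
  rw [sub_mul, sub_mul, smul_mul_assoc, one_mul, Finset.sum_mul]
  congr 1
  rw [Finset.sum_eq_single ε]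
  · rw [smul_mul_assoc, hε.idem]
  · intro b hb hne
    rw [smul_mul_assoc, (mem_bls.mp hb).orth hε hne, smul_zero]
  · intro h
    exact absurd (mem_bls.mpr hε) h

lemma nzb_mem {p : Module.End K V} (hp : p ∈ SC G T p0) :
    nzb (AA G T p0) p ∈ ML G T p0 := subset_lieGen _ ⟨p, hp, rfl⟩

lemma ml_br {x y : Module.End K V} (hx : x ∈ ML G T p0) (hy : y ∈ ML G T p0) :
    x * y - y * x ∈ ML G T p0 := lieGen_comm hx hy

omit D in
lemma nzb_AA {x : Module.End K V} (hx : x ∈ AA G T p0) : nzb (AA G T p0) x ∈ AA G T p0 := by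
  unfold nzb
  apply sub_mem hx
  apply sum_mem
  intro ε hε
  exact Subalgebra.smul_mem _ (mem_bls.mp hε).mem _

lemma ml_mem {x : Module.End K V} (hx : x ∈ ML G T p0) : x ∈ AA G T p0 := by
  have : ML G T p0 ≤ Subalgebra.toSubmodule (AA G T p0) := by
    apply lieGen_le
    · intro x hx y hy
      rw [Subalgebra.mem_toSubmodule] at *
      exact sub_mem (mul_mem hx hy) (mul_mem hy hx)
    · rintro _ ⟨p, hp, rfl⟩
      exact nzb_AA (D.sc_mem hp)
  exact this hx

lemma trace_nzb [CharZero K] (x : Module.End K V) {ε : Module.End K V}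
    (hε : Bl (AA G T p0) ε) : LinearMap.trace K V (nzb (AA G T p0) x * ε) = 0 := by
  rw [D.nzb_mul x hε, sub_mul, smul_mul_assoc, one_mul, map_sub, map_smul, smul_eq_mul,
    div_mul_cancel₀ _ (D.trace_bl_ne hε), sub_self]

lemma ml_tr [CharZero K] {x : Module.End K V} (hx : x ∈ ML G T p0) {ε : Module.End K V}
    (hε : Bl (AA G T p0) ε) : LinearMap.trace K V (x * ε) = 0 := by
  let M : Submodule K (Module.End K V) :=
    { carrier := {x | x ∈ AA G T p0 ∧ LinearMap.trace K V (x * ε) = 0}
      add_mem' := by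
        rintro x y ⟨hx, hx'⟩ ⟨hy, hy'⟩
        exact ⟨add_mem hx hy, by rw [add_mul, map_add, hx', hy', add_zero]⟩
      zero_mem' := ⟨zero_mem _, by simp⟩
      smul_mem' := by
        rintro c x ⟨hx, hx'⟩
        exact ⟨Subalgebra.smul_mem _ hx c, by rw [smul_mul_assoc, map_smul, hx', smul_zero]⟩ }
  have : ML G T p0 ≤ M := by
    apply lieGen_le
    · rintro x ⟨hx, -⟩ y ⟨hy, -⟩
      refine ⟨sub_mem (mul_mem hx hy) (mul_mem hy hx), ?_⟩
      have e : LinearMap.trace K V (x * y * ε) = LinearMap.trace K V (y * x * ε) := by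
        have h1 : x * y * ε = x * (ε * y) := by rw [mul_assoc, hε.cen y hy]
        rw [h1, ← mul_assoc, LinearMap.trace_mul_comm, ← mul_assoc]
      rw [sub_mul, map_sub, e, sub_self]
    · rintro _ ⟨p, hp, rfl⟩
      exact ⟨nzb_AA (D.sc_mem hp), D.trace_nzb p hε⟩
  exact (this hx).2

/-- Coefficients as quotients of ranks. -/
lemma coef [CharZero K] {p : Module.End K V} (hp : p ∈ SC G T p0) {ε : Module.End K V}
    (hε : Bl (AA G T p0) ε) : LinearMap.trace K V (p * ε) / LinearMap.trace K V ε =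
      (MTP.rk (p * ε) : K) / (MTP.rk ε : K) := by
  rw [UN.trace_idem (hε.mul_idem (D.sc_mem hp) (D.c1 hp)), hε.trace_eq]

lemma nzb_tw [CharZero K] {p : Module.End K V} (hp : p ∈ SC G T p0)
    {τ : Module.End K V ≃+* Module.End K V} (hτ : τ ∈ T) :
    nzb (AA G T p0) (τ p) = τ (nzb (AA G T p0) p) := by
  obtain ⟨σ, hσ⟩ := D.semi τ hτ
  unfold nzb
  rw [map_sub, map_sum]
  congr 1
  symm
  refine Finset.sum_nbij' (fun ε => τ ε) (fun ε => τ.symm ε) ?_ ?_ ?_ ?_ ?_
  · intro ε hε
    exact mem_bls.mpr (D.tw_bl hτ (mem_bls.mp hε))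
  · intro ε hε
    exact mem_bls.mpr (D.tw_bl (D.tinv τ hτ) (mem_bls.mp hε))
  · intro ε _
    exact RingEquiv.symm_apply_apply τ ε
  · intro ε _
    exact RingEquiv.apply_symm_apply τ ε
  · intro ε hε
    have hε' := mem_bls.mp hε
    rw [hσ, D.coef hp hε', D.coef (D.c4 hp hτ) (D.tw_bl hτ hε'), ← map_mul, D.rk τ hτ,
      D.rk τ hτ, map_div₀, map_natCast, map_natCast]

lemma nzb_conj [CharZero K] {p : Module.End K V} (hp : p ∈ AA G T p0) {a b : Module.End K V}
    (ha : a ∈ G) (hb : b ∈ G) (hab : a * b = 1) (hba : b * a = 1) :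
    nzb (AA G T p0) (a * p * b) = a * nzb (AA G T p0) p * b := by
  unfold nzb
  rw [mul_sub, sub_mul, Finset.mul_sum, Finset.sum_mul]
  congr 1
  apply Finset.sum_congr rfl
  intro ε hε
  have hε' := mem_bls.mp hε
  have h1 : LinearMap.trace K V (a * p * b * ε) = LinearMap.trace K V (p * ε) := by
    have e : a * p * b * ε = a * (p * ε * b) := by
      rw [mul_assoc (a * p), ← hε'.cen b (D.g_mem hb)]
      simp only [mul_assoc]
    rw [e, LinearMap.trace_mul_comm, mul_assoc, hba, mul_one]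
  have h2 : a * ε * b = ε := by
    rw [← hε'.cen a (D.g_mem ha), mul_assoc, hab, mul_one]
  rw [h1, mul_smul_comm, smul_mul_assoc, h2]

lemma ml_conj [CharZero K] {a b : Module.End K V} (ha : a ∈ G) (hb : b ∈ G) (hab : a * b = 1)
    (hba : b * a = 1) {x : Module.End K V} (hx : x ∈ ML G T p0) : a * x * b ∈ ML G T p0 := by
  let M : Submodule K (Module.End K V) :=
    { carrier := {x | a * x * b ∈ ML G T p0}
      add_mem' := by
        intro x y hx hy
        rw [Set.mem_ofPred_eq] at *
        rw [mul_add, add_mul]; exact Submodule.add_mem _ hx hy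
      zero_mem' := by simp
      smul_mem' := by
        intro c x hx
        rw [Set.mem_ofPred_eq] at *
        rw [mul_smul_comm, smul_mul_assoc]; exact Submodule.smul_mem _ _ hx }
  have : ML G T p0 ≤ M := by
    apply lieGen_le
    · intro x hx y hy
      have hx' : a * x * b ∈ ML G T p0 := hx
      have hy' : a * y * b ∈ ML G T p0 := hy
      have h1 := lieGen_comm hx' hy'
      change a * (x * y - y * x) * b ∈ ML G T p0
      have e : a * x * b * (a * y * b) - a * y * b * (a * x * b) = a * (x * y - y * x) * b := by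
        calc a * x * b * (a * y * b) - a * y * b * (a * x * b)
            = a * x * (b * a) * y * b - a * y * (b * a) * x * b := by simp only [mul_assoc]
          _ = _ := by rw [hba, mul_sub, sub_mul]; simp only [mul_one, mul_assoc]
      rw [e] at h1
      exact h1
    · rintro _ ⟨p, hp, rfl⟩
      change a * nzb (AA G T p0) p * b ∈ ML G T p0
      rw [← D.nzb_conj (D.sc_mem hp) ha hb hab hba]
      exact D.nzb_mem (D.c3 hp ha hb hab hba)
  exact this hx

lemma ml_tw [CharZero K] {τ : Module.End K V ≃+* Module.End K V} (hτ : τ ∈ T)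
    {x : Module.End K V} (hx : x ∈ ML G T p0) : τ x ∈ ML G T p0 := by
  obtain ⟨σ, hσ⟩ := D.semi τ hτ
  let M : Submodule K (Module.End K V) :=
    { carrier := {x | τ x ∈ ML G T p0}
      add_mem' := by
        intro x y hx hy
        rw [Set.mem_ofPred_eq] at *
        rw [map_add]; exact Submodule.add_mem _ hx hy
      zero_mem' := by simp
      smul_mem' := by
        intro c x hx
        rw [Set.mem_ofPred_eq] at *
        rw [hσ]; exact Submodule.smul_mem _ _ hx }
  have : ML G T p0 ≤ M := by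
    apply lieGen_le
    · intro x hx y hy
      have hx' : τ x ∈ ML G T p0 := hx
      have hy' : τ y ∈ ML G T p0 := hy
      have h1 := lieGen_comm hx' hy'
      change τ (x * y - y * x) ∈ ML G T p0
      rw [map_sub, map_mul, map_mul]
      exact h1
    · rintro _ ⟨p, hp, rfl⟩
      change τ (nzb (AA G T p0) p) ∈ ML G T p0
      rw [← D.nzb_tw hp hτ]
      exact D.nzb_mem (D.c4 hp hτ)
  exact this hx

/-- The conjugates are skew after normalisation. -/
lemma nzb_sk [CharZero K] {p : Module.End K V} (hp : p ∈ SC G T p0) :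
    IsSk ω (nzb (AA G T p0) p) := by
  classical
  rcases D.c2 hp with hadj | rfl | rfl
  · -- the adjoint blocks
    have hex : ∀ ε : Module.End K V, ∃ ε' : Module.End K V, Bl (AA G T p0) ε →
        Bl (AA G T p0) ε' ∧ IsAdj ω ε ε' ∧ IsAdj ω ε' ε := by
      intro ε
      by_cases h : Bl (AA G T p0) ε
      · obtain ⟨ε', h1⟩ := D.adj_bl h
        exact ⟨ε', fun _ => h1⟩
      · exact ⟨0, fun h' => absurd h' h⟩
    choose ad had using hex
    have hadad : ∀ ε, Bl (AA G T p0) ε → ad (ad ε) = ε := by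
      intro ε hε
      obtain ⟨h1, h2, h3⟩ := had ε hε
      obtain ⟨h4, h5, h6⟩ := had _ h1
      exact adj_unique D.nd h5 h3
    have hcoef : ∀ ε, Bl (AA G T p0) ε →
        LinearMap.trace K V (p * ε) / LinearMap.trace K V ε =
          1 - LinearMap.trace K V (p * ad ε) / LinearMap.trace K V (ad ε) := by
      intro ε hε
      obtain ⟨h1, h2, h3⟩ := had ε hε
      have e1 : IsAdj ω (p * ad ε) (ε * (1 - p)) := adj_mul hadj h3
      have e2 : MTP.rk (p * ad ε) = MTP.rk (ε * (1 - p)) := rk_adjoint D.nd e1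
      have e3 : MTP.rk (ad ε) = MTP.rk ε := rk_adjoint D.nd h3
      have e4 : (1 - p) * (1 - p) = 1 - p := by
        have := D.c1 hp
        simp only [mul_sub, sub_mul, mul_one, one_mul, this]; abel
      have e5 : ε * (1 - p) = (1 - p) * ε := hε.cen _ (sub_mem (one_mem _) (D.sc_mem hp))
      have e6 := UN.trace_idem (hε.mul_idem (sub_mem (one_mem _) (D.sc_mem hp)) e4)
      have e7 := UN.trace_idem (hε.mul_idem (D.sc_mem hp) (D.c1 hp))
      rw [sub_mul, one_mul, map_sub, e7, hε.trace_eq] at e6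
      rw [D.coef hp hε, D.coef hp h1, e2, e3]
      have h0 := hε.rk_ne
      have e9 : ((MTP.rk (ε * (1 - p)) : ℕ) : K) = (MTP.rk ε : K) - (MTP.rk (p * ε) : K) := by
        rw [e6, e5, sub_mul, one_mul]
      rw [e9]
      field_simp
      ring
    have hsum : IsAdj ω (∑ ε ∈ bls (AA G T p0), (LinearMap.trace K V (p * ε) /
        LinearMap.trace K V ε) • ε) (1 - ∑ ε ∈ bls (AA G T p0), (LinearMap.trace K V (p * ε) /
        LinearMap.trace K V ε) • ε) := by
      have e1 : 1 - ∑ ε ∈ bls (AA G T p0), (LinearMap.trace K V (p * ε) /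
          LinearMap.trace K V ε) • ε = ∑ ε ∈ bls (AA G T p0), (LinearMap.trace K V (p * ε) /
          LinearMap.trace K V ε) • ad ε := by
        have e2 : (1 : Module.End K V) - ∑ ε ∈ bls (AA G T p0), (LinearMap.trace K V (p * ε) /
          LinearMap.trace K V ε) • ε = ∑ ε ∈ bls (AA G T p0), (1 - LinearMap.trace K V (p * ε) /
          LinearMap.trace K V ε) • ε := by
          conv_lhs => rw [← sum_bls (AA G T p0), ← Finset.sum_sub_distrib]
          apply Finset.sum_congr rfl
          intro ε _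
          rw [sub_smul, one_smul]
        rw [e2]
        refine Finset.sum_nbij' (fun ε => ad ε) (fun ε => ad ε) ?_ ?_ ?_ ?_ ?_
        · intro ε hε
          exact mem_bls.mpr (had ε (mem_bls.mp hε)).1
        · intro ε hε
          exact mem_bls.mpr (had ε (mem_bls.mp hε)).1
        · intro ε hε
          exact hadad ε (mem_bls.mp hε)
        · intro ε hε
          exact hadad ε (mem_bls.mp hε)
        · intro ε hε
          have hε' := mem_bls.mp hε
          have h1 := hcoef _ (had ε hε').1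
          rw [hadad ε hε'] at h1
          change _ = _ • ad (ad ε)
          rw [hadad ε hε', h1]
      rw [e1]
      apply adj_sum
      intro ε hε
      exact adj_smul _ (had ε (mem_bls.mp hε)).2.1
    apply sk_of_adj
    unfold nzb
    have := adj_sub hadj hsum
    have e : 1 - p - (1 - ∑ ε ∈ bls (AA G T p0), (LinearMap.trace K V (p * ε) /
        LinearMap.trace K V ε) • ε) = -(p - ∑ ε ∈ bls (AA G T p0), (LinearMap.trace K V (p * ε) /
        LinearMap.trace K V ε) • ε) := by abel
    rwa [e] at this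
  · have e : nzb (AA G T p0) (0 : Module.End K V) = 0 := by
      unfold nzb
      simp
    rw [e]
    intro v w; simp
  · have e : nzb (AA G T p0) (1 : Module.End K V) = 0 := by
      unfold nzb
      rw [sub_eq_zero]
      conv_lhs => rw [← sum_bls (AA G T p0)]
      apply Finset.sum_congr rfl
      intro ε hε
      rw [one_mul, div_self (D.trace_bl_ne (mem_bls.mp hε)), one_smul]
    rw [e]
    intro v w; simp

lemma ml_sk [CharZero K] {x : Module.End K V} (hx : x ∈ ML G T p0) : IsSk ω x := by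
  let M : Submodule K (Module.End K V) :=
    { carrier := {x | IsSk ω x}
      add_mem' := by
        intro x y hx hy v w
        rw [LinearMap.add_apply, LinearMap.add_apply, map_add, map_add, LinearMap.add_apply,
          hx v w, hy v w]
        ring
      zero_mem' := by intro v w; simp
      smul_mem' := by
        intro c x hx v w
        rw [LinearMap.smul_apply, LinearMap.smul_apply, map_smul, map_smul,
          LinearMap.smul_apply, hx v w, smul_eq_mul, smul_eq_mul]
        ring }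
  have : ML G T p0 ≤ M := by
    apply lieGen_le
    · intro x hx y hy v w
      simp only [LinearMap.sub_apply, Module.End.mul_apply, map_sub]
      rw [hx, hy, hy, hx]
      ring
    · rintro _ ⟨p, hp, rfl⟩
      exact D.nzb_sk hp
  exact this hx

/-- A subspace of a block stable under the Lie algebra is stable under the algebra. -/
lemma ml_stab [CharZero K] {ε : Module.End K V} (hε : Bl (AA G T p0) ε) {U : Submodule K V}
    (hU : InB ε U) (h : ∀ x ∈ ML G T p0, ∀ v ∈ U, x v ∈ U) :
    Stab (AA G T p0 : Set (Module.End K V)) U := by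
  apply stab_AA
  intro p hp v hv
  have h1 := LinearMap.congr_fun (D.nzb_mul p hε) v
  rw [Module.End.mul_apply, Module.End.mul_apply, hU v hv, LinearMap.sub_apply,
    LinearMap.smul_apply, Module.End.one_apply] at h1
  have h2 := h _ (D.nzb_mem hp) v hv
  rw [h1] at h2
  have h3 := U.add_mem h2 (U.smul_mem (LinearMap.trace K V (p * ε) / LinearMap.trace K V ε) hv)
  rwa [sub_add_cancel] at h3

omit D in
lemma mem_lb {ε x : Module.End K V} : x ∈ Lb G T p0 ε ↔ ∃ y ∈ ML G T p0, y * ε = x := Iff.rfl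

lemma lb_le {ε : Module.End K V} (hε : Bl (AA G T p0) ε) :
    Lb G T p0 ε ≤ Ae (AA G T p0) ε := by
  rintro _ ⟨y, hy, rfl⟩
  refine ⟨mul_mem (D.ml_mem hy) hε.mem, ?_⟩
  change y * ε * ε = y * ε
  rw [mul_assoc, hε.idem]

omit D in
/-- Products of components. -/
lemma comp_mul {ε x y : Module.End K V} (hε : Bl (AA G T p0) ε) (hy : y ∈ AA G T p0) :
    x * ε * (y * ε) = x * y * ε := by
  calc x * ε * (y * ε) = x * (ε * y) * ε := by simp only [mul_assoc]
    _ = x * (y * ε) * ε := by rw [hε.cen y hy]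
    _ = x * y * (ε * ε) := by simp only [mul_assoc]
    _ = _ := by rw [hε.idem]

lemma lb_br {ε : Module.End K V} (hε : Bl (AA G T p0) ε) {x y : Module.End K V}
    (hx : x ∈ Lb G T p0 ε) (hy : y ∈ Lb G T p0 ε) : x * y - y * x ∈ Lb G T p0 ε := by
  obtain ⟨a, ha, rfl⟩ := hx
  obtain ⟨b, hb, rfl⟩ := hy
  refine ⟨a * b - b * a, D.ml_br ha hb, ?_⟩
  change (a * b - b * a) * ε = a * ε * (b * ε) - b * ε * (a * ε)
  rw [comp_mul hε (D.ml_mem hb), comp_mul hε (D.ml_mem ha), sub_mul]

lemma lb_tr [CharZero K] {ε : Module.End K V} (hε : Bl (AA G T p0) ε) {x : Module.End K V}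
    (hx : x ∈ Lb G T p0 ε) : LinearMap.trace K V x = 0 := by
  obtain ⟨a, ha, rfl⟩ := hx
  exact D.ml_tr ha hε

lemma lb_conj [CharZero K] {ε : Module.End K V} (hε : Bl (AA G T p0) ε) {a b : Module.End K V}
    (ha : a ∈ G) (hb : b ∈ G) (hab : a * b = 1) (hba : b * a = 1) {x : Module.End K V}
    (hx : x ∈ Lb G T p0 ε) : a * x * b ∈ Lb G T p0 ε := by
  obtain ⟨y, hy, rfl⟩ := hx
  refine ⟨a * y * b, D.ml_conj ha hb hab hba hy, ?_⟩
  change a * y * b * ε = a * (y * ε) * b
  rw [mul_assoc (a * y), ← hε.cen b (D.g_mem hb)]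
  simp only [mul_assoc]

lemma lb_tw1 [CharZero K] {ε : Module.End K V}
    {τ : Module.End K V ≃+* Module.End K V} (hτ : τ ∈ T) {x : Module.End K V}
    (hx : x ∈ Lb G T p0 ε) : τ x ∈ Lb G T p0 (τ ε) := by
  obtain ⟨y, hy, rfl⟩ := hx
  exact ⟨τ y, D.ml_tw hτ hy, (map_mul τ y ε).symm⟩

lemma lb_tw [CharZero K] {ε : Module.End K V} (hε : Bl (AA G T p0) ε)
    {τ : Module.End K V ≃+* Module.End K V} (hτ : τ ∈ T) {x : Module.End K V} :
    τ x ∈ Lb G T p0 (τ ε) ↔ x ∈ Lb G T p0 ε := by
  constructor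
  · intro h
    have h1 := D.lb_tw1 (D.tinv τ hτ) h
    rwa [RingEquiv.symm_apply_apply, RingEquiv.symm_apply_apply] at h1
  · exact fun h => D.lb_tw1 hτ h

/-- The component of `p`. -/
lemma lb_p [CharZero K] {ε : Module.End K V} (hε : Bl (AA G T p0) ε) {p : Module.End K V}
    (hp : p ∈ SC G T p0) : ∃ c : K, (p - c • 1) * ε ∈ Lb G T p0 ε :=
  ⟨_, nzb (AA G T p0) p, D.nzb_mem hp, D.nzb_mul p hε⟩

/-- The components of the conjugates generate. -/
lemma lb_gen [CharZero K] {ε : Module.End K V} (hε : Bl (AA G T p0) ε)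
    {M : Submodule K (Module.End K V)} (hM : ∀ x ∈ M, ∀ y ∈ M, x * y - y * x ∈ M)
    (h : ∀ p ∈ SC G T p0, ∀ c : K, (p - c • 1) * ε ∈ Lb G T p0 ε → (p - c • 1) * ε ∈ M) :
    Lb G T p0 ε ≤ M := by
  let N : Submodule K (Module.End K V) :=
    { carrier := {y | y ∈ AA G T p0 ∧ y * ε ∈ M}
      add_mem' := by
        rintro x y ⟨hx, hx'⟩ ⟨hy, hy'⟩
        exact ⟨add_mem hx hy, by rw [add_mul]; exact M.add_mem hx' hy'⟩
      zero_mem' := ⟨zero_mem _, by rw [zero_mul]; exact M.zero_mem⟩
      smul_mem' := by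
        rintro c x ⟨hx, hx'⟩
        exact ⟨Subalgebra.smul_mem _ hx c, by rw [smul_mul_assoc]; exact M.smul_mem c hx'⟩ }
  have hN : ML G T p0 ≤ N := by
    apply lieGen_le
    · rintro x ⟨hx, hx'⟩ y ⟨hy, hy'⟩
      refine ⟨sub_mem (mul_mem hx hy) (mul_mem hy hx), ?_⟩
      have := hM _ hx' _ hy'
      rwa [comp_mul hε hy, comp_mul hε hx, ← sub_mul] at this
    · rintro _ ⟨p, hp, rfl⟩
      refine ⟨nzb_AA (D.sc_mem hp), ?_⟩
      have h1 : nzb (AA G T p0) p * ε ∈ Lb G T p0 ε := ⟨_, D.nzb_mem hp, rfl⟩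
      rw [D.nzb_mul p hε] at h1 ⊢
      exact h p hp _ h1
  rintro _ ⟨y, hy, rfl⟩
  exact (hN hy).2

/-- Ideals of a component are stable under `G`. -/
lemma lb_id_conj [CharZero K] {ε : Module.End K V} (hε : Bl (AA G T p0) ε)
    {M : Submodule K (Module.End K V)} (hM : IsId (Lb G T p0 ε) M) {g h : Module.End K V}
    (hg : g ∈ G) (hh : h ∈ G) (hgh : g * h = 1) (hhg : h * g = 1) {x : Module.End K V}
    (hx : x ∈ M) : g * x * h ∈ M := by
  refine D.genB M ?_ g hg h hh hgh hhg x hx
  intro p hp t ht x hx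
  have hpp := D.c1 hp
  obtain ⟨c, hc⟩ := D.lb_p hε hp
  have key : ∀ y ∈ M, p * y - y * p ∈ M := by
    intro y hy
    have h1 := hM.2 _ hc y hy
    obtain ⟨hyA, hye⟩ := D.lb_le hε (hM.1 hy)
    have hey : ε * y = y := by rw [hε.cen y hyA, hye]
    have e : (p - c • 1) * ε * y - y * ((p - c • 1) * ε) = p * y - y * p := by
      have e1 : y * (p * ε) = y * p := by
        rw [← hε.cen p (D.sc_mem hp), ← mul_assoc, hye]
      rw [mul_assoc, hey, sub_mul, smul_mul_assoc, one_mul, sub_mul, smul_mul_assoc, one_mul,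
        mul_sub, mul_smul_comm, e1, hye]
      abel
    rwa [e] at h1
  have a1 := key x hx
  have a2 := key _ a1
  have e2 : p * (p * x - x * p) - (p * x - x * p) * p =
      p * x + x * p - (2 : K) • (p * x * p) := by
    have : p * (p * x - x * p) - (p * x - x * p) * p =
        (p * p) * x + x * (p * p) - p * x * p - p * x * p := by
      simp only [mul_sub, sub_mul, mul_assoc]; abel
    rw [this, hpp]
    module
  rw [e2] at a2
  have e3 : (1 + (t - 1) • p) * x * (1 + (t⁻¹ - 1) • p) =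
      x + ((t - t⁻¹) / 2) • (p * x - x * p) +
        ((t + t⁻¹ - 2) / 2) • (p * x + x * p - (2 : K) • (p * x * p)) := by
    have h1 : (t - 1) * (t⁻¹ - 1) = 2 - t - t⁻¹ := by field_simp; ring
    have h2 : (1 + (t - 1) • p) * x * (1 + (t⁻¹ - 1) • p) =
        x + (t - 1) • (p * x) + (t⁻¹ - 1) • (x * p) +
          ((t - 1) * (t⁻¹ - 1)) • (p * x * p) := by
      simp only [add_mul, mul_add, one_mul, mul_one, smul_mul_assoc, mul_smul_comm]
      module
    rw [h2, h1]
    module
  rw [e3]
  exact M.add_mem (M.add_mem hx (M.smul_mem _ a1)) (M.smul_mem _ a2)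

end MStr

end AV
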