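import Pool.Agent.Helper2.AV.ADefs

/-!
Semisimple Mumford-Tate pairs: types of blocks.
-/

set_option linter.unusedSectionVars false

open Module

namespace AV

open MTP UN

/-- `b` is the form of the self dual block `ε`: adjoints correspond. -/
structure Fm {K : Type*} [Field K] {V : Type*} [AddCommGroup V] [Module K V]
    [FiniteDimensional K V] (ω : LinearMap.BilinForm K V) (A : Subalgebra K (Module.End K V))
    (ε : Module.End K V) (W : Submodule K V) (b : LinearMap.BilinForm K W) : Prop where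
  nd : b.Nondegenerate
  adj : ∀ x ∈ A, ∀ x' ∈ A, IsAdj ω x x' → IsAdj b (Rw W x) (Rw W x')
  sk : ∀ x ∈ A, x * ε = x → (IsSk ω x ↔ IsSk b (Rw W x))


section CL
variable {K : Type*} [Field K] {V : Type*} [AddCommGroup V]
  [Module K V] [FiniteDimensional K V]

/-- Types of blocks: unitary. -/
def TyU (ω : LinearMap.BilinForm K V) (ε : Module.End K V) (W : Submodule K V) : Prop :=
  ¬ SD ω ε ∧ 3 ≤ finrank K W
/-- Symplectic. -/
def TyS (ω : LinearMap.BilinForm K V) (A : Subalgebra K (Module.End K V)) (ε : Module.End K V)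
    (W : Submodule K V) : Prop :=
  SD ω ε ∧ ∃ b : LinearMap.BilinForm K W, Fm ω A ε W b ∧ b.IsAlt
/-- Orthogonal. -/
def TyO (ω : LinearMap.BilinForm K V) (A : Subalgebra K (Module.End K V)) (ε : Module.End K V)
    (W : Submodule K V) : Prop :=
  SD ω ε ∧ Even (finrank K W) ∧ (finrank K W = 6 ∨ 10 ≤ finrank K W) ∧
    ∃ b : LinearMap.BilinForm K W, Fm ω A ε W b ∧ ∀ v w, b v w = b w v


end CL

section SH
open MTPairs

/-- An exceptional example: all the irreducible subrepresentations have the same triple. -/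
def HasEx1 (K : Type*) [Field K] (D s r : ℕ) : Prop :=
  ∃ (m : Type) (_ : Fintype m) (_ : DecidableEq m) (J : Matrix m m K)
    (G : Subgroup (Matrix.GeneralLinearGroup m K)) (π : Matrix m m K),
    IsStrongMTPair ⊥ J G π ∧ IsReductiveRep G ∧
    (∀ W, IsIrrSub G W → finrank K W = D ∧ HasSig ⊥ G π W s ∧ BadAt ⊥ G π W r) ∧
    ¬ ContainsDer J G

end SH

end AV
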