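import Pool.Agent.Helper2.AV.PF
import Pool.Agent.Helper46.AV.MX
import Pool.Agent.Helper20.AV.GR
import Pool.Agent.Helper90.AV.Shw
import Pool.Agent.Helper82.AV.SHS
import Pool.Agent.Helper78.AV.SH4

/-!
Semisimple Mumford-Tate pairs: the group theorem.
-/

set_option linter.unusedSimpArgs false
set_option linter.unusedSectionVars false
set_option linter.unusedVariables false

open Module MTPairs

namespace AV

open MTP UN

variable {K : Type*} [Field K] [IsAlgClosed K] [CharZero K] {m : Type*} [Fintype m]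
  [DecidableEq m] {Γ : Subgroup (Equiv.Perm (m → K))} {J : Matrix m m K}
  {G : Subgroup (Matrix.GeneralLinearGroup m K)} {π : Matrix m m K} {W : Submodule K (m → K)}

/-! ### Translations -/

omit [IsAlgClosed K] [CharZero K] in
lemma stab_sub {U : Submodule K (m → K)} : Stab (GE G) U ↔ IsSub G U := by
  constructor
  · intro h g hg v hv
    have := h _ ⟨g, hg, rfl⟩ v hv
    rwa [Matrix.toLin'_apply] at this
  · rintro h _ ⟨g, hg, rfl⟩ v hv
    rw [Matrix.toLin'_apply]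
    exact h g hg v hv

omit [IsAlgClosed K] [CharZero K] in
lemma irr_sub {U : Submodule K (m → K)} : Irr (GE G) U ↔ IsIrrSub G U := by
  constructor
  · rintro ⟨h1, h2, h3⟩
    exact ⟨h1, stab_sub.mp h2, fun U' hU' h => h3 U' hU' (stab_sub.mpr h)⟩
  · rintro ⟨h1, h2, h3⟩
    exact ⟨h1, stab_sub.mpr h2, fun U' hU' h => h3 U' hU' (stab_sub.mp h)⟩

omit [IsAlgClosed K] [CharZero K] in
/-- Ranks on stable subspaces. -/
lemma rk_Rw {x : Module.End K (m → K)} (hx : ∀ w ∈ W, x w ∈ W) :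
    MTP.rk (Rw W x) = finrank K (W.map x) := by
  have h : W.map x = (LinearMap.range (Rw W x)).map W.subtype := by
    apply le_antisymm
    · rintro _ ⟨w, hw, rfl⟩
      exact ⟨Rw W x ⟨w, hw⟩, ⟨_, rfl⟩, Rw_coe hx ⟨w, hw⟩⟩
    · rintro _ ⟨_, ⟨w, rfl⟩, rfl⟩
      exact ⟨w, w.2, (Rw_coe hx w).symm⟩
  unfold MTP.rk
  rw [h, Submodule.finrank_map_subtype_eq]

/-- Ranks of conjugates. -/
lemma rk_conj (D : IsStrongMTPair Γ J G π) (hr : IsReductiveRep G) [Nonempty m]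
    (hW : Irr (AA (GE G) (TE Γ) (Matrix.toLin' π) : Set (Module.End K (m → K))) W)
    {P : Matrix m m K} (hP : IsConj Γ G π P) :
    MTP.rk (Rw W (Matrix.toLin' P)) = rankOn P W := by
  have U := mstr D hr
  rw [rk_Rw (hW.st _ (U.sc_mem (GA.sc_of D hP)))]
  rfl

/-- The data of all the blocks. -/
theorem good_or_exc (D : IsStrongMTPair Γ J G π) (hr : IsReductiveRep G) [Nonempty m]
    {ε : Module.End K (m → K)} (hε : Bl (AA (GE G) (TE Γ) (Matrix.toLin' π)) ε)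
    (hW : Irr (AA (GE G) (TE Γ) (Matrix.toLin' π) : Set (Module.End K (m → K))) W)
    (hWε : InB ε W) {s r : ℕ} (hr0 : 0 < r) (hb : BadAt Γ G π W r) (hs : HasSig Γ G π W s) :
    Exc (finrank K W) s r ∨ Good (fJ J) (GE G) (TE Γ) (Matrix.toLin' π) ε W := by
  obtain ⟨k, hk, hbE, hrk⟩ := badE D hr hW hε hWε hr0 hb
  obtain ⟨P, hP, hPs⟩ := hs
  have h := goe (mstr D hr) hε hW hWε hk hr0 hbE hrk (GA.sc_of D hP)
  rw [rk_conj D hr hW hP, hPs] at h
  exact h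

/-- The ranks at a special pair. -/
theorem spc_ranks (D : IsStrongMTPair Γ J G π) (hr : IsReductiveRep G) [Nonempty m]
    {ε₁ ε₂ : Module.End K (m → K)} {W₁ W₂ : Submodule K (m → K)}
    (g1 : Good (fJ J) (GE G) (TE Γ) (Matrix.toLin' π) ε₁ W₁)
    (g2 : Good (fJ J) (GE G) (TE Γ) (Matrix.toLin' π) ε₂ W₂)
    (hs : Good.Spc (GE G) (TE Γ) (Matrix.toLin' π) W₁ W₂)
    (hO : TyO (fJ J) (AA (GE G) (TE Γ) (Matrix.toLin' π)) ε₂ W₂)
    {s₁ r₁ s₂ r₂ : ℕ} (hr1 : 0 < r₁) (hr2 : 0 < r₂) (hb1 : BadAt Γ G π W₁ r₁)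
    (hs1 : HasSig Γ G π W₁ s₁) (hb2 : BadAt Γ G π W₂ r₂) (hs2 : HasSig Γ G π W₂ s₂) :
    s₁ = 1 ∧ r₁ = 1 ∧ s₂ = 3 ∧ r₂ = 2 := by
  obtain ⟨k₁, hk1, hbE1, hrk1⟩ := badE D hr g1.irr g1.bl g1.inb hr1 hb1
  obtain ⟨k₂, hk2, hbE2, hrk2⟩ := badE D hr g2.irr g2.bl g2.inb hr2 hb2
  obtain ⟨P, hP, hPs⟩ := hs1
  obtain ⟨Q, hQ, hQs⟩ := hs2
  have h := spc_r (mstr D hr) g1 g2 hs hO hk1 hr1 hk2 hr2 hbE1 hrk1 hbE2 hrk2
    (GA.sc_of D hP) (GA.sc_of D hQ)
  rw [rk_conj D hr g1.irr hP, rk_conj D hr g2.irr hQ, hPs, hQs] at h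
  exact h

/-- **The group theorem.** -/
theorem containsDer (D : IsStrongMTPair Γ J G π) (hr : IsReductiveRep G) {R : Set (ℕ × ℕ × ℕ)}
    (hR : ∀ D s r, (D, s, r) ∈ R → 0 < r) (hexc : ∀ D s r, (D, s, r) ∈ R → ¬ Exc D s r)
    (htwo : (6, 3, 2) ∉ R ∨ (4, 1, 1) ∉ R)
    (h : ∀ W, IsIrrSub G W → ∃ s r, BadAt Γ G π W r ∧ HasSig Γ G π W s ∧
      (finrank K W, s, r) ∈ R) : ContainsDer J G := by
  rcases isEmpty_or_nonempty m with hm | hm
  · intro g _ _ _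
    have : g = 1 := by
      apply Units.ext
      apply Matrix.ext
      intro i
      exact (hm.false i).elim
    rw [this]; exact G.one_mem
  have U := mstr D hr
  have hgood : ∀ ε, Bl (AA (GE G) (TE Γ) (Matrix.toLin' π)) ε → ∀ W,
      Irr (AA (GE G) (TE Γ) (Matrix.toLin' π) : Set (Module.End K (m → K))) W → InB ε W →
      Good (fJ J) (GE G) (TE Γ) (Matrix.toLin' π) ε W := by
    intro ε hε W hW hWε
    obtain ⟨s, r, h1, h2, h3⟩ := h W (irr_sub.mp (U.irr_iff.mpr hW))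
    rcases good_or_exc D hr hε hW hWε (hR _ _ _ h3) h1 h2 with h4 | h4
    · exact absurd h4 (hexc _ _ _ h3)
    · exact h4
  have hgood' : ∀ ε, Bl (AA (GE G) (TE Γ) (Matrix.toLin' π)) ε → ∃ W,
      Good (fJ J) (GE G) (TE Γ) (Matrix.toLin' π) ε W := by
    intro ε hε
    obtain ⟨W, hW, hWε⟩ := hε.exists_irr
    exact ⟨W, hgood ε hε W hW hWε⟩
  -- no special pairs
  have hnospc : ∀ ε₁ ε₂ W₁ W₂, Good (fJ J) (GE G) (TE Γ) (Matrix.toLin' π) ε₁ W₁ →
      Good (fJ J) (GE G) (TE Γ) (Matrix.toLin' π) ε₂ W₂ →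
      TyO (fJ J) (AA (GE G) (TE Γ) (Matrix.toLin' π)) ε₂ W₂ →
      ¬ Good.Spc (GE G) (TE Γ) (Matrix.toLin' π) W₁ W₂ := by
    intro ε₁ ε₂ W₁ W₂ g1 g2 hO hs
    obtain ⟨s1, r1, a1, a2, a3⟩ := h W₁ (irr_sub.mp (U.irr_iff.mpr g1.irr))
    obtain ⟨s2, r2, b1, b2, b3⟩ := h W₂ (irr_sub.mp (U.irr_iff.mpr g2.irr))
    obtain ⟨rfl, rfl, rfl, rfl⟩ := spc_ranks D hr g1 g2 hs hO (hR _ _ _ a3) (hR _ _ _ b3)
      a1 a2 b1 b2
    rw [hs.1] at a3
    rw [hs.2.1] at b3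
    rcases htwo with h | h
    · exact h b3
    · exact h a3
  have hpair : ∀ ε₁ ε₂, Bl (AA (GE G) (TE Γ) (Matrix.toLin' π)) ε₁ →
      Bl (AA (GE G) (TE Γ) (Matrix.toLin' π)) ε₂ → ε₁ ≠ ε₂ → ¬ IsAdj (fJ J) ε₁ ε₂ →
      ∃ x ∈ ML (GE G) (TE Γ) (Matrix.toLin' π), x * ε₁ ≠ 0 ∧ x * ε₂ = 0 := by
    intro ε₁ ε₂ h1 h2 hne hna
    obtain ⟨W₁, g1⟩ := hgood' ε₁ h1
    obtain ⟨W₂, g2⟩ := hgood' ε₂ h2
    by_contra hcon
    push Not at hcon
    have hl : Good.Lnk (GE G) (TE Γ) (Matrix.toLin' π) ε₁ ε₂ := by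
      intro x hx hx2
      by_contra hx1
      exact hcon x hx hx1 hx2
    exact Good.not_lnk U g1 g2 hne hna (fun t2 hs => hnospc _ _ _ _ g1 g2 t2 hs)
      (fun t1 hs => hnospc _ _ _ _ g2 g1 t1 hs) hl
  have hsm := fun ε hε => (hgood' ε hε).choose_spec.smp
  have hne := fun ε hε => (hgood' ε hε).choose_spec.ne
  have hfu := fun ε hε => (hgood' ε hε).choose_spec.full
  have hM := U.fullM hsm hne hfu hpair
  intro g hgJ hgT hgdet
  have hgA : Matrix.toLin' (g : Matrix m m K) ∈ AA (GE G) (TE Γ) (Matrix.toLin' π) := by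
    apply U.ssA.mem_of_comm
    intro X hX
    have h1 := hgT (LinearMap.toMatrix' X) (by
      intro g' hg'
      have h2 := hX _ (U.g_mem ⟨g', hg', rfl⟩)
      have h3 := congrArg LinearMap.toMatrix' h2
      rwa [LinearMap.toMatrix'_mul, LinearMap.toMatrix'_mul, LinearMap.toMatrix'_toLin'] at h3)
    have h4 := congrArg Matrix.toLin' h1
    rw [GA.toLin_mul, GA.toLin_mul, Matrix.toLin'_toMatrix'] at h4
    exact h4.symm
  have hgi : ∀ v w, fJ J (Matrix.toLin' (g : Matrix m m K) v)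
      (Matrix.toLin' (g : Matrix m m K) w) = fJ J v w := by
    intro v w
    rw [gb_fJ, gb_fJ, Matrix.toLin'_apply, Matrix.toLin'_apply]
    have e : ((g : Matrix m m K).mulVec v) ⬝ᵥ J.mulVec ((g : Matrix m m K).mulVec w) =
        v ⬝ᵥ ((g : Matrix m m K).transpose * J * g).mulVec w := by
      rw [← Matrix.mulVec_mulVec, ← Matrix.mulVec_mulVec, Matrix.dotProduct_mulVec v,
        Matrix.vecMul_transpose]
    rw [e, hgJ]
  have hmem := U.mem_of_full hM (fun ε hε => by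
      obtain ⟨W, hW⟩ := hgood' ε hε
      exact ⟨W, hW.irr, hW.inb, hW.ty⟩)
    (fun x hx hxx => exp_mem D hr (U.ml_der hsm hne hfu hpair hx) hxx) hgA hgi (by
      intro W hW
      have hst : ∀ v ∈ W, (g : Matrix m m K).mulVecLin v ∈ W := by
        intro v hv
        exact hW.st _ hgA v hv
      have h1 := hgdet W (irr_sub.mp (U.irr_iff.mpr hW)) hst
      have h2 : Rw W (Matrix.toLin' (g : Matrix m m K)) =
          (g : Matrix m m K).mulVecLin.restrict hst := by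
        ext w
        rw [Rw_coe (x := Matrix.toLin' (g : Matrix m m K)) (fun v hv => hst v hv)]
        rfl
      rw [h2]
      exact h1)
  obtain ⟨g', hg', he⟩ := hmem
  have : g = g' := by
    apply Units.ext
    apply Matrix.toLin'.injective
    exact he
  rw [this]; exact hg'

/-! ### The criterion -/

/-- **The exact criterion.** -/
theorem criterion {K : Type*} [Field K] [IsAlgClosed K] [CharZero K] (R : Set (ℕ × ℕ × ℕ))
    (hR : ∀ D s r, (D, s, r) ∈ R → 0 < r) :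
    (∀ (m : Type) [Fintype m] [DecidableEq m] (Γ : Subgroup (Equiv.Perm (m → K)))
      (J : Matrix m m K) (G : Subgroup (Matrix.GeneralLinearGroup m K)) (π : Matrix m m K),
      IsStrongMTPair Γ J G π → IsReductiveRep G →
      (∀ W, IsIrrSub G W → ∃ s r, BadAt Γ G π W r ∧ HasSig Γ G π W s ∧
        (finrank K W, s, r) ∈ R) → ContainsDer J G) ↔
    (∀ n k, 5 ≤ n → 2 ≤ k → 2 * k ≤ n →
      (n.choose k, (n - 1).choose (k - 1), (n - 2).choose (k - 1)) ∉ R) ∧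
    (∀ n, 4 ≤ n → (2 ^ (n - 1), 2 ^ (n - 2), 2 ^ (n - 3)) ∉ R ∧
      (2 ^ (n - 1), 2 ^ (n - 2), 2 ^ (n - 2)) ∉ R) ∧
    ((6, 3, 2) ∉ R ∨ (4, 1, 1) ∉ R) := by
  have hex : ∀ {D s r : ℕ}, HasEx1 K D s r → (D, s, r) ∈ R →
      (∀ (m : Type) [Fintype m] [DecidableEq m] (Γ : Subgroup (Equiv.Perm (m → K)))
      (J : Matrix m m K) (G : Subgroup (Matrix.GeneralLinearGroup m K)) (π : Matrix m m K),
      IsStrongMTPair Γ J G π → IsReductiveRep G →
      (∀ W, IsIrrSub G W → ∃ s r, BadAt Γ G π W r ∧ HasSig Γ G π W s ∧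
        (finrank K W, s, r) ∈ R) → ContainsDer J G) → False := by
    rintro D s r ⟨m, _, _, J, G, π, h1, h2, h3, h4⟩ hmem h
    apply h4
    apply h m ⊥ J G π h1 h2
    intro W hW
    obtain ⟨h5, h6, h7⟩ := h3 W hW
    exact ⟨s, r, h7, h6, by rw [h5]; exact hmem⟩
  constructor
  · intro h
    refine ⟨fun n k hn hk hkn hmem => hex (ex_wedge K hn hk hkn) hmem h,
      fun n hn => ⟨fun hmem => hex (ex_spin K hn).1 hmem h,
        fun hmem => hex (ex_spin K hn).2 hmem h⟩, ?_⟩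
    by_contra hcon
    push Not at hcon
    obtain ⟨m, _, _, J, G, π, h1, h2, h3, h4⟩ := ex_four K
    apply h4
    apply h m ⊥ J G π h1 h2
    intro W hW
    rcases h3 W hW with ⟨h5, h6, h7⟩ | ⟨h5, h6, h7⟩
    · exact ⟨3, 2, h7, h6, by rw [h5]; exact hcon.1⟩
    · exact ⟨1, 1, h7, h6, by rw [h5]; exact hcon.2⟩
  · rintro ⟨h1, h2, h3⟩ m _ _ Γ J G π D hr h
    refine containsDer D hr hR ?_ h3 h
    rintro d s r hmem (⟨n, k, a1, a2, a3, rfl, rfl, rfl⟩ | ⟨n, a1, rfl, rfl, a4⟩)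
    · exact h1 n k a1 a2 a3 hmem
    · rcases a4 with rfl | rfl
      · exact (h2 n a1).1 hmem
      · exact (h2 n a1).2 hmem

end AV
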