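import Pool.Agent.Helper2.AV.PR
import Pool.Agent.Helper51.AV.SE
import Pool.Agent.Helper26.AV.CL
import Pool.Agent.Helper9.AV.SO4

/-!
Semisimple Mumford-Tate pairs: good blocks and the ranks at a special pair.
-/

set_option linter.unusedSimpArgs false
set_option linter.unusedSectionVars false
set_option linter.unusedVariables false

open Module

namespace AV

open MTP UN

variable {K : Type*} [Field K] [IsAlgClosed K] [CharZero K] {V : Type*} [AddCommGroup V]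
  [Module K V] [FiniteDimensional K V]
  {ω : LinearMap.BilinForm K V} {G : Set (Module.End K V)}
  {T : Set (Module.End K V ≃+* Module.End K V)} {p0 ε ε₁ ε₂ : Module.End K V}
  {W W₁ W₂ : Submodule K V}

/-- The unipotent element of a place of bad reduction. -/
lemma BadE.data (U : MStr ω G T p0) (hε : Bl (AA G T p0) ε) {r : ℕ}
    (hb : BadE G T p0 ε r) : ∃ N ∈ AA G T p0, ∃ p ∈ SC G T p0, N * N = 0 ∧ p * N = N ∧
      N * p = 0 ∧ N * ε ∈ Lb G T p0 ε ∧ (N * ε) * (N * ε) = 0 ∧ MTP.rk (N * ε) = r := by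
  obtain ⟨τ, hτ, hE, u, hu, p, hp, e1, e2, e3, e4⟩ := hb _ U.tone ∅
  have huA : u - 1 ∈ AA G T p0 := sub_mem (U.g_mem hu) (one_mem _)
  have hNN : (u - 1) * (u - 1) = 0 := by
    calc (u - 1) * (u - 1) = (u - 1) * (p * (u - 1)) := by rw [e1]
      _ = ((u - 1) * p) * (u - 1) := by rw [mul_assoc]
      _ = 0 := by rw [e2, zero_mul]
  have h3 : (u - 1) * ε * ((u - 1) * ε) = 0 := by
    calc (u - 1) * ε * ((u - 1) * ε) = (u - 1) * (ε * (u - 1)) * ε := by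
          simp only [mul_assoc]
      _ = (u - 1) * ((u - 1) * ε) * ε := by rw [hε.cen _ huA]
      _ = (u - 1) * (u - 1) * (ε * ε) := by simp only [mul_assoc]
      _ = 0 := by rw [hNN, zero_mul]
  have h4 : (u - 1) * ε ∈ Lb G T p0 ε := U.quad_lb hε hu hNN
  have h5 := e4 (RingEquiv.refl _) U.tone
  rw [RingEquiv.refl_apply] at h5
  exact ⟨u - 1, huA, p, hp, hNN, e1, e2, h4, h3, h5⟩

/-- The data of all the blocks. -/
theorem goe (U : MStr ω G T p0) (hε : Bl (AA G T p0) ε)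
    (hW : Irr (AA G T p0 : Set (Module.End K V)) W) (hWε : InB ε W) {k r : ℕ} (hk : 0 < k)
    (hr0 : 0 < r) (hbE : BadE G T p0 ε (k * r))
    (hrk : ∀ x ∈ Ae (AA G T p0) ε, MTP.rk x = k * MTP.rk (Rw W x))
    {p : Module.End K V} (hp : p ∈ SC G T p0) :
    Exc (finrank K W) (min (MTP.rk (Rw W p)) (finrank K W - MTP.rk (Rw W p))) r ∨
      Good ω G T p0 ε W := by
  have hkr : 0 < k * r := Nat.mul_pos hk hr0
  have hns := U.ns hε hkr hbE
  have hsm := U.smp_lb hε hkr hbE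
  obtain ⟨N, hNA, p1, hp1, hNN, e1, e2, hN, hN2, e5⟩ := hbE.data U hε
  have e6 : MTP.rk (Rw W (N * ε)) = r := by
    have h1 := hrk _ (U.lb_le hε hN)
    rw [e5] at h1
    exact (Nat.eq_of_mul_eq_mul_left hk h1).symm
  have hN0 : N * ε ≠ 0 := by
    rw [← rk_pos, e5]; exact hkr
  have hne : Lb G T p0 ε ≠ ⊥ := by
    intro h
    rw [h, Submodule.mem_bot] at hN
    exact hN0 hN
  rcases U.classify hε hW hWε hns hsm hN hN2 hN0 hp with h | ⟨h1, h2⟩
  · left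
    rw [e6] at h
    exact h
  · exact Or.inr ⟨hε, hW, hWε, hsm, hne, hns, h1, h2⟩

/-- The ranks at a special pair. -/
theorem spc_r (U : MStr ω G T p0) (g1 : Good ω G T p0 ε₁ W₁) (g2 : Good ω G T p0 ε₂ W₂)
    (hs : Good.Spc G T p0 W₁ W₂) (hO : TyO ω (AA G T p0) ε₂ W₂) {k₁ r₁ k₂ r₂ : ℕ}
    (hk1 : 0 < k₁) (hr1 : 0 < r₁) (hk2 : 0 < k₂) (hr2 : 0 < r₂)
    (hb1 : BadE G T p0 ε₁ (k₁ * r₁))
    (hrk1 : ∀ x ∈ Ae (AA G T p0) ε₁, MTP.rk x = k₁ * MTP.rk (Rw W₁ x))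
    (hb2 : BadE G T p0 ε₂ (k₂ * r₂))
    (hrk2 : ∀ x ∈ Ae (AA G T p0) ε₂, MTP.rk x = k₂ * MTP.rk (Rw W₂ x))
    {p q : Module.End K V} (hp : p ∈ SC G T p0) (hq : q ∈ SC G T p0) :
    min (MTP.rk (Rw W₁ p)) (finrank K W₁ - MTP.rk (Rw W₁ p)) = 1 ∧ r₁ = 1 ∧
      min (MTP.rk (Rw W₂ q)) (finrank K W₂ - MTP.rk (Rw W₂ q)) = 3 ∧ r₂ = 2 := by
  obtain ⟨d1, d2, hsp⟩ := hs
  obtain ⟨hsd, -, -, b, hbf, hbs⟩ := hO
  have hhalf : ∀ p ∈ SC G T p0, 2 * MTP.rk (Rw W₂ p) = 6 := by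
    intro p hp
    have hpA := U.sc_mem hp
    have hpp := U.c1 hp
    rcases U.c2 hp with h | h | h
    · have h1 := hbf.adj p hpA (1 - p) (sub_mem (one_mem _) hpA) h
      rw [map_sub, Good.rw_one] at h1
      have h2 : IsSk b (Rw W₂ p - (2 : K)⁻¹ • 1) := by
        intro v w
        have h3 := h1 v w
        simp only [LinearMap.sub_apply, LinearMap.smul_apply, map_sub, map_smul,
          Module.End.one_apply, smul_eq_mul] at h3 ⊢
        rw [h3]
        have h4 : (2 : K)⁻¹ * b v w + (2 : K)⁻¹ * b v w = b v w := by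
          rw [← add_mul]; norm_num
        linear_combination -h4
      have h5 := (dim_so_one hbf.nd hbs (by rw [← Good.rw_hom U g2 hpA hpA, hpp]) h2).1
      rw [h5, d2]
    · exact absurd (by rw [h, zero_mul]) (g2.ns p hp).1
    · exact absurd (by rw [h, one_mul]) (g2.ns p hp).2
  refine ⟨?_, ?_, ?_, ?_⟩
  · rw [d1]
    rcases hsp _ hp with h | h <;> rw [h] <;> rfl
  · obtain ⟨N, hNA, p, hp, hNN, e1, e2, hN, hN2, e5⟩ := hb1.data U g1.bl
    have hpA := U.sc_mem hp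
    have e6 : MTP.rk (Rw W₁ N) = r₁ := by
      have h1 := hrk1 _ (U.lb_le g1.bl hN)
      rw [e5, Good.rw_mul U g1 hNA] at h1
      exact (Nat.eq_of_mul_eq_mul_left hk1 h1).symm
    have f1 : Rw W₁ p * Rw W₁ N = Rw W₁ N := by
      rw [← Good.rw_hom U g1 hpA hNA, e1]
    have f2 : Rw W₁ N * Rw W₁ p = 0 := by
      rw [← Good.rw_hom U g1 hNA hpA, e2, _root_.map_zero]
    have f3 : MTP.rk (Rw W₁ N) ≤ MTP.rk (Rw W₁ p) := by
      rw [← f1]; exact rk_mul_le_left _ _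
    have f4 : MTP.rk (Rw W₁ N) + MTP.rk (Rw W₁ p) ≤ 4 := by
      have h1 := LinearMap.finrank_range_add_finrank_ker (Rw W₁ N)
      rw [d1] at h1
      have h2 : MTP.rk (Rw W₁ p) ≤ finrank K (LinearMap.ker (Rw W₁ N)) := by
        apply Submodule.finrank_mono
        rintro _ ⟨v, rfl⟩
        rw [LinearMap.mem_ker]
        exact LinearMap.congr_fun f2 v
      change finrank K (LinearMap.range (Rw W₁ N)) + MTP.rk (Rw W₁ p) ≤ 4
      omega
    rw [e6] at f3 f4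
    rcases hsp _ hp with h | h <;> omega
  · rw [d2]
    have h1 := hhalf _ hq
    omega
  · obtain ⟨N, hNA, p, hp, hNN, e1, e2, hN, hN2, e5⟩ := hb2.data U g2.bl
    have hpA := U.sc_mem hp
    have e6 : MTP.rk (Rw W₂ N) = r₂ := by
      have h1 := hrk2 _ (U.lb_le g2.bl hN)
      rw [e5, Good.rw_mul U g2 hNA] at h1
      exact (Nat.eq_of_mul_eq_mul_left hk2 h1).symm
    have hsk : IsSk b (Rw W₂ N) := by
      rw [← Good.rw_mul U g2 hNA]
      exact (hbf.sk _ (U.lb_le g2.bl hN).1 (U.lb_le g2.bl hN).2).mp (g2.lb_sk U hsd hN)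
    have hev := rk_even hbf.nd hbs hsk
    rw [e6] at hev
    have f1 : Rw W₂ p * Rw W₂ N = Rw W₂ N := by
      rw [← Good.rw_hom U g2 hpA hNA, e1]
    have f3 : MTP.rk (Rw W₂ N) ≤ MTP.rk (Rw W₂ p) := by
      rw [← f1]; exact rk_mul_le_left _ _
    have h1 := hhalf _ hp
    rw [e6] at f3
    obtain ⟨q, hq⟩ := hev
    omega

end AV
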