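import Pool.Agent.Helper2.AV.MB
import Pool.Agent.Helper55.AV.DAb
import Pool.Agent.Helper31.AV.TY
import Pool.Agent.Helper19.AV.GO
import Pool.Agent.Helper58.AV.P4
import Pool.Agent.Helper9.AV.UU
import Pool.Agent.Helper9.AV.OO

/-!
Semisimple Mumford-Tate pairs: linked blocks.
-/

set_option linter.unusedSimpArgs false
set_option linter.unusedSectionVars false
set_option linter.unusedVariables false

open Module

namespace AV

open MTP UN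

variable {K : Type*} [Field K] [IsAlgClosed K] [CharZero K] {V : Type*} [AddCommGroup V]
  [Module K V] [FiniteDimensional K V]
  {ω : LinearMap.BilinForm K V} {G : Set (Module.End K V)}
  {T : Set (Module.End K V ≃+* Module.End K V)} {p0 ε ε₁ ε₂ : Module.End K V}
  {W W₁ W₂ : Submodule K V}

/-- The pair of restrictions. -/
noncomputable def RR2 (ε₁ ε₂ : Module.End K V) (W₁ W₂ : Submodule K V) :
    Module.End K V →ₗ[K] (Module.End K W₁ × Module.End K W₂) :=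
  ((Rw W₁).comp (LinearMap.mulRight K ε₁)).prod ((Rw W₂).comp (LinearMap.mulRight K ε₂))

/-- The type of a block. -/
def Tyy (ω : LinearMap.BilinForm K V) (A : Subalgebra K (Module.End K V)) (ε : Module.End K V)
    (W : Submodule K V) : Prop := TyU ω ε W ∨ TyS ω A ε W ∨ TyO ω A ε W

/-- The data of a good block. -/
structure Good (ω : LinearMap.BilinForm K V) (G : Set (Module.End K V))
    (T : Set (Module.End K V ≃+* Module.End K V)) (p0 ε : Module.End K V) (W : Submodule K V) :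
    Prop where
  bl : Bl (AA G T p0) ε
  irr : Irr (AA G T p0 : Set (Module.End K V)) W
  inb : InB ε W
  smp : Smp (Lb G T p0 ε)
  ne : Lb G T p0 ε ≠ ⊥
  ns : ∀ p ∈ SC G T p0, p * ε ≠ 0 ∧ p * ε ≠ ε
  full : FullB ω G T p0 ε
  ty : Tyy ω (AA G T p0) ε W

namespace Good

variable (D : MStr ω G T p0)
include D

lemma on_U (hg : Good ω G T p0 ε W) (h : TyU ω ε W) : (Lb G T p0 ε).map (Rw W) = slw K W := by
  have R := D.ssA.rs hg.bl hg.irr hg.inb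
  obtain ⟨k, hk, htr, -⟩ := R.mult
  have hk0 : (k : K) ≠ 0 := by rw [Nat.cast_ne_zero]; omega
  apply le_antisymm
  · rintro _ ⟨x, hx, rfl⟩
    change LinearMap.trace K W (Rw W x) = 0
    have h1 := htr x (D.lb_le hg.bl hx)
    rw [D.lb_tr hg.bl hx] at h1
    exact (mul_eq_zero.mp h1.symm).resolve_left hk0
  · intro z hz
    obtain ⟨x, hx, rfl⟩ := R.surj z
    refine ⟨x, hg.full x hx.1 hx.2 ?_ (fun hsd => absurd hsd h.1), rfl⟩
    have hz' : LinearMap.trace K W (Rw W x) = 0 := hz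
    rw [htr x hx, hz', mul_zero]

lemma lb_sk (hg : Good ω G T p0 ε W) (hsd : SD ω ε) {x : Module.End K V}
    (hx : x ∈ Lb G T p0 ε) : IsSk ω x := by
  obtain ⟨y, hy, rfl⟩ := hx
  have h1 : IsAdj ω (y * ε) (ε * -y) := adj_mul (adj_of_sk (D.ml_sk hy)) hsd
  have h2 : ε * -y = -(y * ε) := by rw [mul_neg, hg.bl.cen y (D.ml_mem hy)]
  rw [h2] at h1
  exact sk_of_adj h1

lemma on_K (hg : Good ω G T p0 ε W) (hsd : SD ω ε) {b : LinearMap.BilinForm K W}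
    (hb : Fm ω (AA G T p0) ε W b) : (Lb G T p0 ε).map (Rw W) = skw b := by
  have R := D.ssA.rs hg.bl hg.irr hg.inb
  apply le_antisymm
  · rintro _ ⟨x, hx, rfl⟩
    exact (hb.sk x (D.lb_le hg.bl hx).1 (D.lb_le hg.bl hx).2).mp (hg.lb_sk D hsd hx)
  · intro z hz
    obtain ⟨x, hx, rfl⟩ := R.surj z
    have h1 : IsSk ω x := (hb.sk x hx.1 hx.2).mpr hz
    exact ⟨x, hg.full x hx.1 hx.2 (trace_eq_zero_of_sk D.nd h1) (fun _ => h1), rfl⟩

omit D in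
lemma map_one (M : Submodule K (Module.End K V)) :
    (M.map (RR2 ε₁ ε₂ W₁ W₂)).map (LinearMap.fst K _ _) =
      (M.map (LinearMap.mulRight K ε₁)).map (Rw W₁) := by
  rw [← Submodule.map_comp, ← Submodule.map_comp]
  rfl

omit D in
lemma map_two (M : Submodule K (Module.End K V)) :
    (M.map (RR2 ε₁ ε₂ W₁ W₂)).map (LinearMap.snd K _ _) =
      (M.map (LinearMap.mulRight K ε₂)).map (Rw W₂) := by
  rw [← Submodule.map_comp, ← Submodule.map_comp]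
  rfl

omit D in
lemma on1 {M : Submodule K (Module.End K W₁)} (h : (Lb G T p0 ε₁).map (Rw W₁) = M) :
    On1 ((ML G T p0).map (RR2 ε₁ ε₂ W₁ W₂)) M := by
  unfold On1
  rw [map_one]
  exact h

omit D in
lemma on2 {M : Submodule K (Module.End K W₂)} (h : (Lb G T p0 ε₂).map (Rw W₂) = M) :
    On2 ((ML G T p0).map (RR2 ε₁ ε₂ W₁ W₂)) M := by
  unfold On2
  rw [map_two]
  exact h

/-- Linked blocks. -/
def Lnk (G : Set (Module.End K V)) (T : Set (Module.End K V ≃+* Module.End K V))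
    (p0 ε₁ ε₂ : Module.End K V) : Prop := ∀ x ∈ ML G T p0, x * ε₂ = 0 → x * ε₁ = 0

lemma lk (h1 : Good ω G T p0 ε₁ W₁) (h2 : Good ω G T p0 ε₂ W₂) (hl : Lnk G T p0 ε₁ ε₂) :
    Lk ((ML G T p0).map (RR2 ε₁ ε₂ W₁ W₂)) :=
  D.lk h1.bl h2.bl h1.smp h2.smp h1.ne h2.ne hl h1.irr h1.inb h2.irr h2.inb

lemma lnk_symm (h1 : Good ω G T p0 ε₁ W₁) (h2 : Good ω G T p0 ε₂ W₂)
    (hl : Lnk G T p0 ε₁ ε₂) : Lnk G T p0 ε₂ ε₁ := by
  intro x hx hx1
  have hL := lk D h1 h2 hl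
  have R := D.ssA.rs h2.bl h2.irr h2.inb
  apply R.inj _ (D.lb_le h2.bl ⟨x, hx, rfl⟩)
  refine hL.k1 (RR2 ε₁ ε₂ W₁ W₂ x) ⟨x, hx, rfl⟩ ?_
  change Rw W₁ (x * ε₁) = 0
  rw [hx1, _root_.map_zero]

lemma no_f (h1 : Good ω G T p0 ε₁ W₁) (h2 : Good ω G T p0 ε₂ W₂) (hne : ε₁ ≠ ε₂)
    (hf : ∃ f : W₁ →ₗ[K] W₂, f ≠ 0 ∧ ∀ x ∈ (ML G T p0).map (RR2 ε₁ ε₂ W₁ W₂), ∀ v,
      f (x.1 v) = x.2 (f v)) : False := by
  obtain ⟨f, hf0, hf⟩ := hf
  exact hf0 (D.no_iso h1.bl h2.bl hne h1.ns h1.irr h1.inb h2.irr h2.inb f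
    (fun x hx v => hf _ ⟨x, hx, rfl⟩ v))

lemma no_c (h1 : Good ω G T p0 ε₁ W₁) (h2 : Good ω G T p0 ε₂ W₂) (hne : ¬ IsAdj ω ε₁ ε₂)
    (hc : ∃ c : W₁ →ₗ[K] W₂ →ₗ[K] K, c ≠ 0 ∧ ∀ x ∈ (ML G T p0).map (RR2 ε₁ ε₂ W₁ W₂),
      ∀ v w, c (x.1 v) w = - c v (x.2 w)) : False := by
  obtain ⟨c, hc0, hc⟩ := hc
  exact hc0 (D.no_pair h1.bl h2.bl hne h1.ns h1.irr h1.inb h2.irr h2.inb c
    (fun x hx v w => hc _ ⟨x, hx, rfl⟩ v w))

/-- The special pair of linked blocks. -/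
def Spc (G : Set (Module.End K V)) (T : Set (Module.End K V ≃+* Module.End K V))
    (p0 : Module.End K V) (W₁ W₂ : Submodule K V) : Prop :=
  finrank K W₁ = 4 ∧ finrank K W₂ = 6 ∧
    ∀ p ∈ SC G T p0, MTP.rk (Rw W₁ p) = 1 ∨ MTP.rk (Rw W₁ p) = 3

lemma rw_mul (hg : Good ω G T p0 ε W) {x : Module.End K V} (hx : x ∈ AA G T p0) :
    Rw W (x * ε) = Rw W x := by
  have hst := hg.irr.st
  have h1 : ∀ w ∈ W, (x * ε) w ∈ W := by
    intro w hw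
    rw [Module.End.mul_apply, hg.inb w hw]
    exact hst x hx w hw
  ext w
  rw [Rw_coe h1, Rw_coe (hst x hx), Module.End.mul_apply, hg.inb w w.2]

lemma rw_hom (hg : Good ω G T p0 ε W) {x y : Module.End K V} (hx : x ∈ AA G T p0)
    (hy : y ∈ AA G T p0) : Rw W (x * y) = Rw W x * Rw W y := by
  have hst := hg.irr.st
  ext w
  rw [Rw_coe (hst _ (mul_mem hx hy)), Module.End.mul_apply, Module.End.mul_apply,
    Rw_coe (hst x hx), Rw_coe (hst y hy)]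

omit D in
lemma rw_one : Rw W (1 : Module.End K V) = 1 := by
  ext w
  rw [Rw_coe (fun w hw => hw)]
  rfl

lemma spc (h1 : Good ω G T p0 ε₁ W₁) (h2 : Good ω G T p0 ε₂ W₂) (hl : Lnk G T p0 ε₁ ε₂)
    (t1 : TyU ω ε₁ W₁) (t2 : TyO ω (AA G T p0) ε₂ W₂) : Spc G T p0 W₁ W₂ := by
  obtain ⟨hsd, he, hd, b, hb, hbs⟩ := t2
  obtain ⟨r1, r2, r3⟩ := pair_UO (lk D h1 h2 hl) hb.nd hbs (on1 (h1.on_U D t1))
    (on2 (h2.on_K D hsd hb)) he (by omega)
  refine ⟨r1, r2, fun p hp => ?_⟩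
  -- the component of `p` in `ε₂`
  have hpA := D.sc_mem hp
  have hpp := D.c1 hp
  set c1 := LinearMap.trace K V (p * ε₁) / LinearMap.trace K V ε₁ with hc1
  set c2 := LinearMap.trace K V (p * ε₂) / LinearMap.trace K V ε₂ with hc2
  have e1 : Rw W₁ (nzb (AA G T p0) p * ε₁) = Rw W₁ p - c1 • 1 := by
    rw [D.nzb_mul p h1.bl, rw_mul D h1 (sub_mem hpA (Subalgebra.smul_mem _ (one_mem _) _)),
      map_sub, map_smul, rw_one]
  have e2 : Rw W₂ (nzb (AA G T p0) p * ε₂) = Rw W₂ p - c2 • 1 := by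
    rw [D.nzb_mul p h2.bl, rw_mul D h2 (sub_mem hpA (Subalgebra.smul_mem _ (one_mem _) _)),
      map_sub, map_smul, rw_one]
  have hc2h : c2 = (2 : K)⁻¹ := by
    rcases D.c2 hp with h | h | h
    · have hε₂ := h2.bl
      have a1 : IsAdj ω (p * ε₂) (ε₂ * (1 - p)) := adj_mul h hsd
      have a2 : MTP.rk (p * ε₂) = MTP.rk (ε₂ * (1 - p)) := rk_adjoint D.nd a1
      have a3 : (1 - p) * (1 - p) = 1 - p := by
        simp only [mul_sub, sub_mul, mul_one, one_mul, hpp]; abel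
      have a4 := UN.trace_idem (hε₂.mul_idem (sub_mem (one_mem _) hpA) a3)
      have a5 := UN.trace_idem (hε₂.mul_idem hpA hpp)
      have a6 : ε₂ * (1 - p) = (1 - p) * ε₂ := hε₂.cen _ (sub_mem (one_mem _) hpA)
      rw [← a6, ← a2, a6, sub_mul, one_mul, map_sub, a5] at a4
      have a7 : (2 : K) * (MTP.rk (p * ε₂) : K) = LinearMap.trace K V ε₂ := by
        linear_combination -a4
      rw [hc2, a5, ← a7]
      have a8 : (MTP.rk (p * ε₂) : K) ≠ 0 := by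
        rw [Nat.cast_ne_zero, ← Nat.pos_iff_ne_zero, rk_pos]
        exact (h2.ns p hp).1
      field_simp
    · exact absurd (by rw [h, zero_mul]) (h2.ns p hp).1
    · exact absurd (by rw [h, one_mul]) (h2.ns p hp).2
  rw [hc2h] at e2
  exact r3 _ ⟨nzb (AA G T p0) p, D.nzb_mem hp, rfl⟩ (Rw W₁ p) (Rw W₂ p) c1
    (by rw [← rw_hom D h1 hpA hpA, hpp]) (by rw [← rw_hom D h2 hpA hpA, hpp]) e1 e2

/-- Different blocks which are not adjoint are not linked, except for the special case. -/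
theorem not_lnk (h1 : Good ω G T p0 ε₁ W₁) (h2 : Good ω G T p0 ε₂ W₂) (hne : ε₁ ≠ ε₂)
    (hna : ¬ IsAdj ω ε₁ ε₂)
    (hs1 : TyO ω (AA G T p0) ε₂ W₂ → ¬ Spc G T p0 W₁ W₂)
    (hs2 : TyO ω (AA G T p0) ε₁ W₁ → ¬ Spc G T p0 W₂ W₁) :
    ¬ Lnk G T p0 ε₁ ε₂ := by
  intro hl
  have hl' := lnk_symm D h1 h2 hl
  rcases h1.ty with t1 | ⟨sd1, b₁, f1, a1⟩ | t1 <;> rcases h2.ty with t2 | ⟨sd2, b₂, f2, a2⟩ | t2
  · rcases pair_UU (lk D h1 h2 hl) (on1 (h1.on_U D t1)) (on2 (h2.on_U D t2)) with h | h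
    · exact no_f D h1 h2 hne h
    · exact no_c D h1 h2 hna h
  · exact pair_US (lk D h1 h2 hl) t1.2 f2.nd a2 (on1 (h1.on_U D t1)) (on2 (h2.on_K D sd2 f2))
  · exact hs1 t2 (spc D h1 h2 hl t1 t2)
  · exact pair_US (lk D h2 h1 hl') t2.2 f1.nd a1 (on1 (h2.on_U D t2)) (on2 (h1.on_K D sd1 f1))
  · exact no_f D h1 h2 hne (pair_SS (lk D h1 h2 hl) f1.nd a1 f2.nd a2
      (on1 (h1.on_K D sd1 f1)) (on2 (h2.on_K D sd2 f2)))
  · obtain ⟨sd2, he, hd, b₂, f2, a2⟩ := t2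
    exact pair_SO (lk D h1 h2 hl) f1.nd a1 f2.nd a2 (on1 (h1.on_K D sd1 f1))
      (on2 (h2.on_K D sd2 f2)) he (by omega)
  · exact hs2 t1 (spc D h2 h1 hl' t2 t1)
  · obtain ⟨sd1, he, hd, b₁, f1, a1⟩ := t1
    exact pair_SO (lk D h2 h1 hl') f2.nd a2 f1.nd a1 (on1 (h2.on_K D sd2 f2))
      (on2 (h1.on_K D sd1 f1)) he (by omega)
  · obtain ⟨sd1, he1, hd1, b₁, f1, a1⟩ := t1
    obtain ⟨sd2, he2, hd2, b₂, f2, a2⟩ := t2
    exact no_f D h1 h2 hne (pair_OO (lk D h1 h2 hl) f1.nd a1 f2.nd a2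
      (on1 (h1.on_K D sd1 f1)) (on2 (h2.on_K D sd2 f2)) he1 hd1 he2 hd2)

end Good

end AV
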